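import Pool.Agent.H16.NC.PF

/-!
# AS.Def : Artin-Schreier extensions of dg algebras (block T of EK, MP_eadf0f_ag)

`ASX A B q` : `B` is generated over the dg algebra `A` by an even element `t` with `t a = a t + δ a`, `D t = η`,
`t ^ q = t + φ` (`δ a`, `η`, `φ` in `A`), and every element of `B` is uniquely a sum of the `a_j t^j`, `j < q`.
(For a torsor `X → Z` under the finite field with `q` elements this is the relation between the Čech algebras of
`Z` and `X`.)  The aim of this folder is `ASX.pf`: in characteristic `p`, for `q` a power of `p`, if the diagonal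
bimodule of `A` is perfect (`PF`) then so is the one of `B`.

Basic lemmas of this file: Leibniz formulas, both bases (`cL`, `cR`).
-/

set_option autoImplicit false

open scoped TensorProduct

namespace NC

variable {k : Type} [Field k]

/-- Artin-Schreier extension of dg algebras -/
structure ASX (A B : DGA k) (q : ℕ) where
  /-- the inclusion -/
  i : DGA.NHom A B
  i_one : i.f 1 = 1
  /-- the generator -/
  t : B.V
  P_t : B.P t = t
  /-- the commutator with `t` -/
  δ : A.V →ₗ[k] A.V
  comm : ∀ a, t * i.f a = i.f a * t + i.f (δ a)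
  /-- the differential of `t` -/
  η : A.V
  D_t : B.D t = i.f η
  /-- the value `t ^ q - t` -/
  φ : A.V
  t_pow : t ^ q = t + i.f φ
  left_bij : Function.Bijective (fun a : Fin q → A.V => ∑ j : Fin q, i.f (a j) * t ^ (j : ℕ))

namespace ASX

variable {A B : DGA k} {q : ℕ} (S : ASX A B q)

theorem i_mul (a b : A.V) : S.i.f (a * b) = S.i.f a * S.i.f b := S.i.mul a b

theorem E_t : B.E S.t = S.t := by
  rw [SD.E_apply, S.P_t]; abel

theorem P_t_mul (b : B.V) : B.P (S.t * b) = S.t * B.P b := by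
  have h := B.P_mul S.t b
  rw [← B.mul_def, ← B.mul_def, ← B.mul_def, S.P_t, sub_self, zero_mul, add_zero] at h
  exact h

theorem P_mul_t (b : B.V) : B.P (b * S.t) = B.P b * S.t := by
  have h := B.P_mul b S.t
  rw [← B.mul_def, ← B.mul_def, ← B.mul_def, S.P_t, sub_self, mul_zero, add_zero] at h
  exact h

theorem P_pow_mul (n : ℕ) (b : B.V) : B.P (S.t ^ n * b) = S.t ^ n * B.P b := by
  induction n with
  | zero => rw [pow_zero, one_mul, one_mul]
  | succ n ih => rw [pow_succ', mul_assoc, mul_assoc, S.P_t_mul, ih]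

theorem P_mul_pow (n : ℕ) (b : B.V) : B.P (b * S.t ^ n) = B.P b * S.t ^ n := by
  induction n with
  | zero => rw [pow_zero, mul_one, mul_one]
  | succ n ih => rw [pow_succ, ← mul_assoc, ← mul_assoc, S.P_mul_t, ih]

theorem P_pow (n : ℕ) : B.P (S.t ^ n) = S.t ^ n := by
  have h := S.P_pow_mul n 1
  have h1 : B.P (1 : B.V) = 1 := B.P_one
  rwa [h1, mul_one] at h

theorem E_pow_mul (n : ℕ) (b : B.V) : B.E (S.t ^ n * b) = S.t ^ n * B.E b := by
  rw [SD.E_apply, SD.E_apply, P_pow_mul, mul_sub, mul_add]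

theorem E_mul_pow (n : ℕ) (b : B.V) : B.E (b * S.t ^ n) = B.E b * S.t ^ n := by
  rw [SD.E_apply, SD.E_apply, P_mul_pow, sub_mul, add_mul]

theorem E_pow (n : ℕ) : B.E (S.t ^ n) = S.t ^ n := by
  rw [SD.E_apply, P_pow]; abel

/-- the span of the `a t^j`, `j < n` -/
def low (n : ℕ) : Submodule k B.V := Submodule.span k {x | ∃ (a : A.V) (j : ℕ), j < n ∧ x = S.i.f a * S.t ^ j}

/-- the span of the `t^j a`, `j < n` -/
def low' (n : ℕ) : Submodule k B.V := Submodule.span k {x | ∃ (a : A.V) (j : ℕ), j < n ∧ x = S.t ^ j * S.i.f a}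

theorem low_mono {m n : ℕ} (h : m ≤ n) : S.low m ≤ S.low n := by
  refine Submodule.span_mono ?_
  rintro x ⟨a, j, hj, rfl⟩
  exact ⟨a, j, lt_of_lt_of_le hj h, rfl⟩

theorem low'_mono {m n : ℕ} (h : m ≤ n) : S.low' m ≤ S.low' n := by
  refine Submodule.span_mono ?_
  rintro x ⟨a, j, hj, rfl⟩
  exact ⟨a, j, lt_of_lt_of_le hj h, rfl⟩

theorem mem_low {n j : ℕ} (h : j < n) (a : A.V) : S.i.f a * S.t ^ j ∈ S.low n := Submodule.subset_span ⟨a, j, h, rfl⟩

theorem mem_low' {n j : ℕ} (h : j < n) (a : A.V) : S.t ^ j * S.i.f a ∈ S.low' n := Submodule.subset_span ⟨a, j, h, rfl⟩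

theorem t_mul_low {n : ℕ} {x : B.V} (h : x ∈ S.low n) : S.t * x ∈ S.low (n + 1) := by
  induction h using Submodule.span_induction with
  | mem x hx =>
    obtain ⟨a, j, hj, rfl⟩ := hx
    rw [← mul_assoc, S.comm, add_mul, mul_assoc, ← pow_succ']
    exact (S.low _).add_mem (S.mem_low (by omega) _) (S.mem_low (by omega) _)
  | zero =>
    rw [mul_zero]
    exact (S.low _).zero_mem
  | add x y _ _ hx hy =>
    rw [mul_add]
    exact (S.low _).add_mem hx hy
  | smul c x _ hx =>
    rw [mul_smul_comm]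
    exact (S.low _).smul_mem c hx

theorem low_mul_t {n : ℕ} {x : B.V} (h : x ∈ S.low' n) : x * S.t ∈ S.low' (n + 1) := by
  induction h using Submodule.span_induction with
  | mem x hx =>
    obtain ⟨a, j, hj, rfl⟩ := hx
    have h1 : S.i.f a * S.t = S.t * S.i.f a - S.i.f (S.δ a) := by
      rw [S.comm]
      abel
    rw [mul_assoc, h1, mul_sub, ← mul_assoc, ← pow_succ]
    exact (S.low' _).sub_mem (S.mem_low' (by omega) _) (S.mem_low' (by omega) _)
  | zero =>
    rw [zero_mul]
    exact (S.low' _).zero_mem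
  | add x y _ _ hx hy =>
    rw [add_mul]
    exact (S.low' _).add_mem hx hy
  | smul c x _ hx =>
    rw [smul_mul_assoc]
    exact (S.low' _).smul_mem c hx

/-- `t^n a = a t^n` up to lower terms -/
theorem pow_comm (n : ℕ) (a : A.V) : S.t ^ n * S.i.f a - S.i.f a * S.t ^ n ∈ S.low n := by
  induction n with
  | zero =>
    rw [pow_zero, one_mul, mul_one, sub_self]
    exact (S.low _).zero_mem
  | succ n ih =>
    have h1 : S.t ^ (n + 1) * S.i.f a - S.i.f a * S.t ^ (n + 1) =
        S.t * (S.t ^ n * S.i.f a - S.i.f a * S.t ^ n) + S.i.f (S.δ a) * S.t ^ n := by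
      rw [mul_sub, ← mul_assoc S.t (S.i.f a), S.comm, add_mul, pow_succ' S.t n, mul_assoc, mul_assoc]
      abel
    rw [h1]
    exact (S.low _).add_mem (S.t_mul_low ih) (S.mem_low (by omega) _)

/-- `a t^n = t^n a` up to lower terms -/
theorem pow_comm' (n : ℕ) (a : A.V) : S.i.f a * S.t ^ n - S.t ^ n * S.i.f a ∈ S.low' n := by
  induction n with
  | zero =>
    rw [pow_zero, one_mul, mul_one, sub_self]
    exact (S.low' _).zero_mem
  | succ n ih =>
    have h1 : S.i.f a * S.t ^ (n + 1) - S.t ^ (n + 1) * S.i.f a =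
        (S.i.f a * S.t ^ n - S.t ^ n * S.i.f a) * S.t - S.t ^ n * S.i.f (S.δ a) := by
      have h2 : S.i.f (S.δ a) = S.t * S.i.f a - S.i.f a * S.t := by
        rw [S.comm]
        abel
      rw [sub_mul, h2, mul_sub, pow_succ S.t n, ← mul_assoc, ← mul_assoc, ← mul_assoc]
      abel
    rw [h1]
    exact (S.low' _).sub_mem (S.low_mul_t ih) (S.mem_low' (by omega) _)

theorem low_le (n : ℕ) : S.low n ≤ S.low' n := by
  induction n with
  | zero =>
    refine Submodule.span_le.2 ?_
    rintro x ⟨a, j, hj, rfl⟩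
    omega
  | succ n ih =>
    refine Submodule.span_le.2 ?_
    rintro x ⟨a, j, hj, rfl⟩
    rcases Nat.lt_or_ge j n with h | h
    · exact S.low'_mono (Nat.le_succ n) (ih (S.mem_low h a))
    · have h1 : j = n := by omega
      subst h1
      have h2 : S.i.f a * S.t ^ j = (S.i.f a * S.t ^ j - S.t ^ j * S.i.f a) + S.t ^ j * S.i.f a := by abel
      rw [h2]
      exact (S.low' _).add_mem (S.low'_mono (Nat.le_succ j) (S.pow_comm' j a)) (S.mem_low' (by omega) a)

theorem low'_le (n : ℕ) : S.low' n ≤ S.low n := by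
  induction n with
  | zero =>
    refine Submodule.span_le.2 ?_
    rintro x ⟨a, j, hj, rfl⟩
    omega
  | succ n ih =>
    refine Submodule.span_le.2 ?_
    rintro x ⟨a, j, hj, rfl⟩
    rcases Nat.lt_or_ge j n with h | h
    · exact S.low_mono (Nat.le_succ n) (ih (S.mem_low' h a))
    · have h1 : j = n := by omega
      subst h1
      have h2 : S.t ^ j * S.i.f a = (S.t ^ j * S.i.f a - S.i.f a * S.t ^ j) + S.i.f a * S.t ^ j := by abel
      rw [h2]
      exact (S.low _).add_mem (S.low_mono (Nat.le_succ j) (S.pow_comm j a)) (S.mem_low (by omega) a)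

/-- elements of `low n` are sums over `j < n` of left monomials -/
theorem exists_of_low {n : ℕ} {x : B.V} (h : x ∈ S.low n) :
    ∃ a : ℕ → A.V, x = ∑ j ∈ Finset.range n, S.i.f (a j) * S.t ^ j := by
  induction h using Submodule.span_induction with
  | mem x hx =>
    obtain ⟨a, j, hj, rfl⟩ := hx
    refine ⟨fun l => if l = j then a else 0, ?_⟩
    rw [Finset.sum_eq_single j]
    · beta_reduce
      rw [if_pos rfl]
    · intro l _ hl
      beta_reduce
      rw [if_neg hl, map_zero, zero_mul]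
    · intro h
      exact absurd (Finset.mem_range.2 hj) h
  | zero => exact ⟨fun _ => 0, by simp⟩
  | add x y _ _ hx hy =>
    obtain ⟨a, rfl⟩ := hx
    obtain ⟨b, rfl⟩ := hy
    refine ⟨fun j => a j + b j, ?_⟩
    rw [← Finset.sum_add_distrib]
    exact Finset.sum_congr rfl fun j _ => by rw [map_add, add_mul]
  | smul c x _ hx =>
    obtain ⟨a, rfl⟩ := hx
    refine ⟨fun j => c • a j, ?_⟩
    rw [Finset.smul_sum]
    exact Finset.sum_congr rfl fun j _ => by rw [map_smul, smul_mul_assoc]

theorem exists_of_low' {n : ℕ} {x : B.V} (h : x ∈ S.low' n) :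
    ∃ a : ℕ → A.V, x = ∑ j ∈ Finset.range n, S.t ^ j * S.i.f (a j) := by
  induction h using Submodule.span_induction with
  | mem x hx =>
    obtain ⟨a, j, hj, rfl⟩ := hx
    refine ⟨fun l => if l = j then a else 0, ?_⟩
    rw [Finset.sum_eq_single j]
    · beta_reduce
      rw [if_pos rfl]
    · intro l _ hl
      beta_reduce
      rw [if_neg hl, map_zero, mul_zero]
    · intro h
      exact absurd (Finset.mem_range.2 hj) h
  | zero => exact ⟨fun _ => 0, by simp⟩
  | add x y _ _ hx hy =>
    obtain ⟨a, rfl⟩ := hx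
    obtain ⟨b, rfl⟩ := hy
    refine ⟨fun j => a j + b j, ?_⟩
    rw [← Finset.sum_add_distrib]
    exact Finset.sum_congr rfl fun j _ => by rw [map_add, mul_add]
  | smul c x _ hx =>
    obtain ⟨a, rfl⟩ := hx
    refine ⟨fun j => c • a j, ?_⟩
    rw [Finset.smul_sum]
    exact Finset.sum_congr rfl fun j _ => by rw [map_smul, mul_smul_comm]

/-- uniqueness of left coordinates, range form -/
theorem left_uniq {a : ℕ → A.V} (h : ∑ j ∈ Finset.range q, S.i.f (a j) * S.t ^ j = 0) : ∀ j < q, a j = 0 := by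
  have h1 : (fun a : Fin q → A.V => ∑ j : Fin q, S.i.f (a j) * S.t ^ (j : ℕ)) (fun j => a j) =
      (fun a : Fin q → A.V => ∑ j : Fin q, S.i.f (a j) * S.t ^ (j : ℕ)) 0 := by
    change ∑ j : Fin q, S.i.f (a j) * S.t ^ (j : ℕ) = ∑ j : Fin q, S.i.f ((0 : Fin q → A.V) j) * S.t ^ (j : ℕ)
    rw [Fin.sum_univ_eq_sum_range (fun j => S.i.f (a j) * S.t ^ j) q, h]
    simp
  have h2 := S.left_bij.1 h1
  intro j hj
  exact congrFun h2 ⟨j, hj⟩

theorem inj (hq : 0 < q) : Function.Injective S.i.f := by
  rw [injective_iff_map_eq_zero]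
  intro a ha
  have h := S.left_uniq (a := fun j => if j = 0 then a else 0) (by
    refine Finset.sum_eq_zero fun j _ => ?_
    rcases Nat.eq_zero_or_pos j with h | h
    · rw [if_pos h, ha, zero_mul]
    · rw [if_neg (by omega), map_zero, zero_mul]) 0 hq
  rwa [if_pos rfl] at h

private theorem right_uniq {a : ℕ → A.V} (n : ℕ) (hn : n ≤ q)
    (h : ∑ j ∈ Finset.range n, S.t ^ j * S.i.f (a j) = 0) : ∀ j < n, a j = 0 := by
  induction n with
  | zero =>
    intro j hj
    omega
  | succ n ih =>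
    have h0 : a n = 0 := by
      rw [Finset.sum_range_succ] at h
      have h1 : ∑ j ∈ Finset.range n, S.t ^ j * S.i.f (a j) ∈ S.low n :=
        S.low'_le n ((S.low' n).sum_mem fun j hj => S.mem_low' (Finset.mem_range.1 hj) _)
      have h2 : S.i.f (a n) * S.t ^ n ∈ S.low n := by
        have h3 : S.i.f (a n) * S.t ^ n = -(S.t ^ n * S.i.f (a n) - S.i.f (a n) * S.t ^ n)
            - ∑ j ∈ Finset.range n, S.t ^ j * S.i.f (a j) := by
          have h4 : S.t ^ n * S.i.f (a n) = - ∑ j ∈ Finset.range n, S.t ^ j * S.i.f (a j) := by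
            rw [eq_neg_iff_add_eq_zero, add_comm]
            exact h
          rw [h4]
          abel
        rw [h3]
        exact (S.low n).sub_mem ((S.low n).neg_mem (S.pow_comm n (a n))) h1
      obtain ⟨b, hb⟩ := S.exists_of_low h2
      have h5 := S.left_uniq (a := fun j => if j = n then a n else if j < n then - b j else 0) (by
        rw [← Finset.sum_subset (Finset.range_subset_range.2 hn) (fun j _ hj => by
          rw [Finset.mem_range] at hj
          rw [if_neg (by omega), if_neg (by omega), map_zero, zero_mul]), Finset.sum_range_succ, if_pos rfl, hb,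
          ← Finset.sum_add_distrib]
        refine Finset.sum_eq_zero fun j hj => ?_
        rw [Finset.mem_range] at hj
        rw [if_neg (by omega), if_pos hj, map_neg, neg_mul]
        abel) n (by omega)
      rwa [if_pos rfl] at h5
    intro j hj
    rcases Nat.lt_or_ge j n with h1 | h1
    · refine ih (by omega) ?_ j h1
      rw [Finset.sum_range_succ, h0, map_zero, mul_zero, add_zero] at h
      exact h
    · have h2 : j = n := by omega
      rw [h2, h0]

theorem right_bij : Function.Bijective (fun a : Fin q → A.V => ∑ j : Fin q, S.t ^ (j : ℕ) * S.i.f (a j)) := by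
  constructor
  · intro a b hab
    have h1 : ∑ j : Fin q, S.t ^ (j : ℕ) * S.i.f (a j - b j) = 0 := by
      have h2 : ∑ j : Fin q, S.t ^ (j : ℕ) * S.i.f (a j) = ∑ j : Fin q, S.t ^ (j : ℕ) * S.i.f (b j) := hab
      simp only [map_sub, mul_sub, Finset.sum_sub_distrib, h2, sub_self]
    have h3 := S.right_uniq (a := fun j => if h : j < q then a ⟨j, h⟩ - b ⟨j, h⟩ else 0) q le_rfl (by
      rw [← Fin.sum_univ_eq_sum_range (fun j => S.t ^ j * S.i.f (if h : j < q then a ⟨j, h⟩ - b ⟨j, h⟩ else 0)) q]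
      rw [← h1]
      refine Finset.sum_congr rfl fun j _ => ?_
      rw [dif_pos j.2])
    funext j
    have h4 := h3 j j.2
    rw [dif_pos j.2] at h4
    exact sub_eq_zero.1 h4
  · intro b
    obtain ⟨a, ha⟩ := S.left_bij.2 b
    have h1 : b ∈ S.low q := by
      rw [← ha]
      exact (S.low q).sum_mem fun j _ => S.mem_low j.2 _
    obtain ⟨c, hc⟩ := S.exists_of_low' (S.low_le q h1)
    refine ⟨fun j => c j, ?_⟩
    change ∑ j : Fin q, S.t ^ (j : ℕ) * S.i.f (c j) = b
    rw [Fin.sum_univ_eq_sum_range (fun j => S.t ^ j * S.i.f (c j)) q, hc]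

/-- the sum `∑ a_j t^j` -/
noncomputable def psiL : (Fin q → A.V) →ₗ[k] B.V where
  toFun a := ∑ j : Fin q, S.i.f (a j) * S.t ^ (j : ℕ)
  map_add' a b := by
    rw [← Finset.sum_add_distrib]
    exact Finset.sum_congr rfl fun j _ => by rw [Pi.add_apply, map_add, add_mul]
  map_smul' c a := by
    rw [RingHom.id_apply, Finset.smul_sum]
    exact Finset.sum_congr rfl fun j _ => by rw [Pi.smul_apply, map_smul, smul_mul_assoc]

/-- the sum `∑ t^j a_j` -/
noncomputable def psiR : (Fin q → A.V) →ₗ[k] B.V where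
  toFun a := ∑ j : Fin q, S.t ^ (j : ℕ) * S.i.f (a j)
  map_add' a b := by
    rw [← Finset.sum_add_distrib]
    exact Finset.sum_congr rfl fun j _ => by rw [Pi.add_apply, map_add, mul_add]
  map_smul' c a := by
    rw [RingHom.id_apply, Finset.smul_sum]
    exact Finset.sum_congr rfl fun j _ => by rw [Pi.smul_apply, map_smul, mul_smul_comm]

/-- left coordinates: `b = ∑ cL b j * t^j` -/
noncomputable def cL : B.V ≃ₗ[k] (Fin q → A.V) := (LinearEquiv.ofBijective S.psiL S.left_bij).symm

/-- right coordinates: `b = ∑ t^j * cR b j` -/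
noncomputable def cR : B.V ≃ₗ[k] (Fin q → A.V) := (LinearEquiv.ofBijective S.psiR S.right_bij).symm

theorem cL_spec (b : B.V) : ∑ j : Fin q, S.i.f (S.cL b j) * S.t ^ (j : ℕ) = b :=
  (LinearEquiv.ofBijective S.psiL S.left_bij).apply_symm_apply b

theorem cR_spec (b : B.V) : ∑ j : Fin q, S.t ^ (j : ℕ) * S.i.f (S.cR b j) = b :=
  (LinearEquiv.ofBijective S.psiR S.right_bij).apply_symm_apply b

theorem cL_eq {b : B.V} {a : Fin q → A.V} (h : b = ∑ j : Fin q, S.i.f (a j) * S.t ^ (j : ℕ)) : S.cL b = a := by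
  rw [h]
  exact (LinearEquiv.ofBijective S.psiL S.left_bij).symm_apply_apply a

theorem cR_eq {b : B.V} {a : Fin q → A.V} (h : b = ∑ j : Fin q, S.t ^ (j : ℕ) * S.i.f (a j)) : S.cR b = a := by
  rw [h]
  exact (LinearEquiv.ofBijective S.psiR S.right_bij).symm_apply_apply a

end ASX

end NC
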