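import Pool.Agent.H37.AS.Rho

/-!
# AS.Ind : the induced bimodule `B ⊗_A X ⊗_A B`

The elements of `ind X` are matrices `x` with entries in `X`, which stand for `∑ t^i x_ij t^j`.  With the matrix products
`lm a x = (∑_l a_il x_lj)` and `rm x a = (∑_l x_il a_lj)`:
`b x = lm (rho b) x`, `x b = rm x (rho' b)`, `D x = (D x_ij) + lm th x + rm (E x) th'`.

PROOFS.  Everything follows from the rules `lm (a b) x = lm a (lm b x)`, `rm (rm x a) b = rm x (a b)`,
`rm (lm a x) b = lm a (rm x b)`, `D (lm a x) = lm (D a) x + lm (E a) (D x)`, `D (rm x a) = rm (D x) a + rm (E x) (D a)`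
(entrywise `D`), and from `AS.Rho`.  For instance, with `d` for the entrywise differential,
`D (D x) = d (d x + θ x + E x θ') + θ (d x + θ x + E x θ') + E (d x + θ x + E x θ') θ'`
`= (dθ + θ θ) x + x (dθ' - θ' θ') = 0`, `D (x b) - D x b - E x D b = E x (dρ' + E ρ' θ' - θ' ρ' - ρ'(D b)) = 0`,
`D (b x) - D b x - E b D x = (θ ρ + dρ - ρ (D b) - ρ (E b) θ) x = 0`.
-/

set_option autoImplicit false

open scoped TensorProduct

namespace NC

variable {k : Type} [Field k]

section mat

variable {A C : DGA k} {n : ℕ} {N : SD k}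

/-- product of a matrix over `A` with a matrix over a left module -/
noncomputable def lm (x : LA A N) (n : ℕ) : Matrix (Fin n) (Fin n) A.V →ₗ[k] Matrix (Fin n) (Fin n) N.V →ₗ[k]
    Matrix (Fin n) (Fin n) N.V :=
  LinearMap.mk₂ k (fun a m => Matrix.of fun i j => ∑ l, x.act (a i l) (m l j))
    (fun a a' m => by
      ext i j
      simp only [Matrix.of_apply, Matrix.add_apply, map_add, LinearMap.add_apply, Finset.sum_add_distrib])
    (fun c a m => by
      ext i j
      simp only [Matrix.of_apply, Matrix.smul_apply, map_smul, LinearMap.smul_apply, Finset.smul_sum])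
    (fun a m m' => by
      ext i j
      simp only [Matrix.of_apply, Matrix.add_apply, map_add, Finset.sum_add_distrib])
    (fun c a m => by
      ext i j
      simp only [Matrix.of_apply, Matrix.smul_apply, map_smul, Finset.smul_sum])

/-- product of a matrix over a right module with a matrix over `A` -/
noncomputable def rm (x : RA A N) (n : ℕ) : Matrix (Fin n) (Fin n) N.V →ₗ[k] Matrix (Fin n) (Fin n) A.V →ₗ[k]
    Matrix (Fin n) (Fin n) N.V :=
  LinearMap.mk₂ k (fun m a => Matrix.of fun i j => ∑ l, x.act (m i l) (a l j))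
    (fun m m' a => by
      ext i j
      simp only [Matrix.of_apply, Matrix.add_apply, map_add, LinearMap.add_apply, Finset.sum_add_distrib])
    (fun c m a => by
      ext i j
      simp only [Matrix.of_apply, Matrix.smul_apply, map_smul, LinearMap.smul_apply, Finset.smul_sum])
    (fun m a a' => by
      ext i j
      simp only [Matrix.of_apply, Matrix.add_apply, map_add, Finset.sum_add_distrib])
    (fun c m a => by
      ext i j
      simp only [Matrix.of_apply, Matrix.smul_apply, map_smul, Finset.smul_sum])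

/-- a linear map applied to all entries -/
noncomputable def ew {V W : Type} [AddCommGroup V] [Module k V] [AddCommGroup W] [Module k W] (n : ℕ) (f : V →ₗ[k] W) :
    Matrix (Fin n) (Fin n) V →ₗ[k] Matrix (Fin n) (Fin n) W where
  toFun m := m.map f
  map_add' a b := by
    ext i j
    simp only [Matrix.map_apply, Matrix.add_apply, map_add]
  map_smul' c a := by
    ext i j
    simp only [Matrix.map_apply, Matrix.smul_apply, map_smul, RingHom.id_apply]

@[simp] theorem lm_apply (x : LA A N) (a : Matrix (Fin n) (Fin n) A.V) (m : Matrix (Fin n) (Fin n) N.V) (i j : Fin n) :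
    lm x n a m i j = ∑ l, x.act (a i l) (m l j) := rfl

@[simp] theorem rm_apply (x : RA A N) (a : Matrix (Fin n) (Fin n) A.V) (m : Matrix (Fin n) (Fin n) N.V) (i j : Fin n) :
    rm x n m a i j = ∑ l, x.act (m i l) (a l j) := rfl

@[simp] theorem ew_apply {V W : Type} [AddCommGroup V] [Module k V] [AddCommGroup W] [Module k W] (f : V →ₗ[k] W)
    (m : Matrix (Fin n) (Fin n) V) (i j : Fin n) : ew n f m i j = f (m i j) := rfl

theorem lm_mul (x : LA A N) (a b : Matrix (Fin n) (Fin n) A.V) (m : Matrix (Fin n) (Fin n) N.V) :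
    lm x n (a * b) m = lm x n a (lm x n b m) := by
  ext i j
  simp only [lm_apply, Matrix.mul_apply, map_sum, LinearMap.sum_apply, x.mul_act]
  exact Finset.sum_comm

theorem rm_mul (x : RA A N) (a b : Matrix (Fin n) (Fin n) A.V) (m : Matrix (Fin n) (Fin n) N.V) :
    rm x n (rm x n m a) b = rm x n m (a * b) := by
  ext i j
  simp only [rm_apply, Matrix.mul_apply, map_sum, LinearMap.sum_apply, x.act_mul]
  exact Finset.sum_comm

theorem lm_rm (b : Bi A C N) (a : Matrix (Fin n) (Fin n) A.V) (m : Matrix (Fin n) (Fin n) N.V)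
    (c : Matrix (Fin n) (Fin n) C.V) : rm b.r n (lm b.l n a m) c = lm b.l n a (rm b.r n m c) := by
  ext i j
  simp only [lm_apply, rm_apply, map_sum, LinearMap.sum_apply, b.lr]
  exact Finset.sum_comm

theorem D_lm (x : LA A N) (a : Matrix (Fin n) (Fin n) A.V) (m : Matrix (Fin n) (Fin n) N.V) :
    ew n N.D (lm x n a m) = lm x n (a.map A.D) m + lm x n (a.map A.E) (ew n N.D m) := by
  ext i j
  simp only [ew_apply, lm_apply, Matrix.add_apply, map_sum, x.D_act, Matrix.map_apply, Finset.sum_add_distrib]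

theorem D_rm (x : RA A N) (a : Matrix (Fin n) (Fin n) A.V) (m : Matrix (Fin n) (Fin n) N.V) :
    ew n N.D (rm x n m a) = rm x n (ew n N.D m) a + rm x n (ew n N.E m) (a.map A.D) := by
  ext i j
  simp only [ew_apply, rm_apply, Matrix.add_apply, map_sum, x.D_act, Matrix.map_apply, Finset.sum_add_distrib]

theorem E_lm (x : LA A N) (a : Matrix (Fin n) (Fin n) A.V) (m : Matrix (Fin n) (Fin n) N.V) :
    ew n N.E (lm x n a m) = lm x n (a.map A.E) (ew n N.E m) := by
  ext i j
  simp only [ew_apply, lm_apply, map_sum, x.E_act, Matrix.map_apply]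

theorem E_rm (x : RA A N) (a : Matrix (Fin n) (Fin n) A.V) (m : Matrix (Fin n) (Fin n) N.V) :
    ew n N.E (rm x n m a) = rm x n (ew n N.E m) (a.map A.E) := by
  ext i j
  simp only [ew_apply, rm_apply, map_sum, x.E_act, Matrix.map_apply]

theorem P_lm (x : LA A N) (a : Matrix (Fin n) (Fin n) A.V) (m : Matrix (Fin n) (Fin n) N.V) :
    ew n N.P (lm x n a m) = lm x n (a.map A.P) (ew n N.P m) + lm x n (a - a.map A.P) (m - ew n N.P m) := by
  ext i j
  simp only [ew_apply, lm_apply, Matrix.add_apply, Matrix.sub_apply, map_sum, x.P_act, Matrix.map_apply,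
    Finset.sum_add_distrib]

theorem P_rm (x : RA A N) (a : Matrix (Fin n) (Fin n) A.V) (m : Matrix (Fin n) (Fin n) N.V) :
    ew n N.P (rm x n m a) = rm x n (ew n N.P m) (a.map A.P) + rm x n (m - ew n N.P m) (a - a.map A.P) := by
  ext i j
  simp only [ew_apply, rm_apply, Matrix.add_apply, Matrix.sub_apply, map_sum, x.P_act, Matrix.map_apply,
    Finset.sum_add_distrib]

theorem ew_DD (m : Matrix (Fin n) (Fin n) N.V) : ew n N.D (ew n N.D m) = 0 := by
  ext i j
  exact N.DD _

theorem ew_DE (m : Matrix (Fin n) (Fin n) N.V) : ew n N.D (ew n N.E m) = - ew n N.E (ew n N.D m) := by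
  ext i j
  exact N.DE _

theorem ew_EE (m : Matrix (Fin n) (Fin n) N.V) : ew n N.E (ew n N.E m) = m := by
  ext i j
  exact N.EE _

theorem ew_DP (m : Matrix (Fin n) (Fin n) N.V) : ew n N.D (ew n N.P m) = ew n N.D m - ew n N.P (ew n N.D m) := by
  ext i j
  exact N.DP _

theorem ew_EP (m : Matrix (Fin n) (Fin n) N.V) : ew n N.E (ew n N.P m) = ew n N.P m := by
  ext i j
  exact N.EP _

theorem ew_PE (m : Matrix (Fin n) (Fin n) N.V) : ew n N.P (ew n N.E m) = ew n N.P m := by
  ext i j
  exact N.PE _

theorem ew_PP (m : Matrix (Fin n) (Fin n) N.V) : ew n N.P (ew n N.P m) = ew n N.P m := by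
  ext i j
  exact N.PP _

theorem ew_E (m : Matrix (Fin n) (Fin n) N.V) : ew n N.E m = ew n N.P m + ew n N.P m - m := by
  ext i j
  rfl

end mat

namespace ASX

variable {A B : DGA k} {q : ℕ} (S : ASX A B q)

/-- the differential of the induced bimodule -/
noncomputable def indD (X : BMod A A) : Matrix (Fin q) (Fin q) X.N.V →ₗ[k] Matrix (Fin q) (Fin q) X.N.V :=
  ew q X.N.D + lm X.b.l q S.th + (rm X.b.r q).flip S.th' ∘ₗ ew q X.N.E

theorem indD_apply (X : BMod A A) (x : Matrix (Fin q) (Fin q) X.N.V) :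
    S.indD X x = ew q X.N.D x + lm X.b.l q S.th x + rm X.b.r q (ew q X.N.E x) S.th' := rfl

theorem indD_indD (X : BMod A A) (x : Matrix (Fin q) (Fin q) X.N.V) : S.indD X (S.indD X x) = 0 := by
  have h1 : S.th.map A.D = - (S.th * S.th) := by
    rw [eq_neg_iff_add_eq_zero, add_comm]
    exact S.th_th
  simp only [indD_apply, map_add, ew_DD, D_lm, D_rm, E_lm, E_rm, ew_DE, ew_EE, S.th_E, S.th'_E,
    S.th'_th', h1, map_neg, LinearMap.neg_apply, lm_rm, rm_mul, ← lm_mul]
  rw [← rm_mul]
  abel

theorem indD_P (X : BMod A A) (x : Matrix (Fin q) (Fin q) X.N.V) :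
    S.indD X (ew q X.N.P x) = S.indD X x - ew q X.N.P (S.indD X x) := by
  have h1 : S.th.map A.P = 0 := by
    ext i j
    exact S.th_odd i j
  have h2 : S.th'.map A.P = 0 := by
    ext i j
    exact S.th'_odd i j
  simp only [indD_apply, map_add, ew_DP, P_lm, P_rm, h1, h2, map_zero, LinearMap.zero_apply, zero_add,
    sub_zero, ew_E, map_sub, LinearMap.add_apply, LinearMap.sub_apply, ew_PP]
  abel

/-- the complex of the induced bimodule -/
noncomputable abbrev indN (X : BMod A A) : SD k where
  V := Matrix (Fin q) (Fin q) X.N.V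
  D := S.indD X
  P := ew q X.N.P
  DD := S.indD_indD X
  PP x := by
    ext i j
    simp only [ew_apply, X.N.PP]
  DP := S.indD_P X

theorem indN_E (X : BMod A A) (x : Matrix (Fin q) (Fin q) X.N.V) : (S.indN X).E x = ew q X.N.E x := rfl

theorem ind_P_l (X : BMod A A) (b : B.V) (x : Matrix (Fin q) (Fin q) X.N.V) :
    ew q X.N.P (lm X.b.l q (S.rho b) x) =
      lm X.b.l q (S.rho (B.P b)) (ew q X.N.P x) + lm X.b.l q (S.rho (b - B.P b)) (x - ew q X.N.P x) := by
  have h1 : S.rho (B.P b) = (S.rho b).map A.P := by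
    ext i j
    exact S.rho_P b i j
  rw [P_lm, map_sub S.rho b (B.P b), h1]

theorem ind_P_r (X : BMod A A) (b : B.V) (x : Matrix (Fin q) (Fin q) X.N.V) :
    ew q X.N.P (rm X.b.r q x (S.rho' b)) =
      rm X.b.r q (ew q X.N.P x) (S.rho' (B.P b)) + rm X.b.r q (x - ew q X.N.P x) (S.rho' (b - B.P b)) := by
  have h1 : S.rho' (B.P b) = (S.rho' b).map A.P := by
    ext i j
    exact S.rho'_P b i j
  rw [P_rm, map_sub S.rho' b (B.P b), h1]

theorem ind_D_l (X : BMod A A) (b : B.V) (x : Matrix (Fin q) (Fin q) X.N.V) :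
    S.indD X (lm X.b.l q (S.rho b) x) =
      lm X.b.l q (S.rho (B.D b)) x + lm X.b.l q (S.rho (B.E b)) (S.indD X x) := by
  have h1 : S.rho (B.D b) = S.th * S.rho b + (S.rho b).map A.D - S.rho (B.E b) * S.th := by
    rw [← S.rho_D]
    abel
  rw [h1, S.rho_E]
  simp only [indD_apply, map_add, map_sub, LinearMap.add_apply, LinearMap.sub_apply, D_lm, E_lm, lm_mul, lm_rm]
  abel

theorem ind_D_r (X : BMod A A) (b : B.V) (x : Matrix (Fin q) (Fin q) X.N.V) :
    S.indD X (rm X.b.r q x (S.rho' b)) =
      rm X.b.r q (S.indD X x) (S.rho' b) + rm X.b.r q (ew q X.N.E x) (S.rho' (B.D b)) := by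
  have h1 : S.rho' (B.D b) = (S.rho' b).map A.D + (S.rho' b).map A.E * S.th' - S.th' * S.rho' b := by
    rw [← S.rho'_D]
    abel
  rw [h1]
  simp only [indD_apply, map_add, map_sub, LinearMap.add_apply, D_rm, E_rm, ← rm_mul, lm_rm]
  abel

/-- the induced bimodule -/
noncomputable def ind (X : BMod A A) : BMod B B where
  N := S.indN X
  b :=
    { l :=
        { act := lm X.b.l q ∘ₗ S.rho
          mul_act := fun a b y => by
            change lm X.b.l q (S.rho (a * b)) y = lm X.b.l q (S.rho a) (lm X.b.l q (S.rho b) y)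
            rw [S.rho_mul, lm_mul]
          P_act := fun a y => S.ind_P_l X a y
          D_act := fun a y => S.ind_D_l X a y }
      r :=
        { act := (rm X.b.r q).compl₂ S.rho'
          act_mul := fun x a b => by
            change rm X.b.r q (rm X.b.r q x (S.rho' a)) (S.rho' b) = rm X.b.r q x (S.rho' (a * b))
            rw [S.rho'_mul, rm_mul]
          P_act := fun x a => S.ind_P_r X a x
          D_act := fun x a => by
            change S.indD X (rm X.b.r q x (S.rho' a)) =
              rm X.b.r q (S.indD X x) (S.rho' a) + rm X.b.r q ((S.indN X).E x) (S.rho' (B.D a))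
            rw [S.indN_E]
            exact S.ind_D_r X a x }
      lr := fun a x c => lm_rm X.b (S.rho a) x (S.rho' c) }
  one_l := fun y => by
    change lm X.b.l q (S.rho 1) y = y
    rw [S.rho_one]
    ext i j
    rw [lm_apply, Finset.sum_eq_single i]
    · rw [Matrix.one_apply_eq, X.one_l]
    · intro l _ hl
      rw [Matrix.one_apply_ne (Ne.symm hl), map_zero, LinearMap.zero_apply]
    · intro h
      exact absurd (Finset.mem_univ i) h
  r_one := fun y => by
    change rm X.b.r q y (S.rho' 1) = y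
    rw [S.rho'_one]
    ext i j
    rw [rm_apply, Finset.sum_eq_single j]
    · rw [Matrix.one_apply_eq, X.r_one]
    · intro l _ hl
      rw [Matrix.one_apply_ne hl, map_zero]
    · intro h
      exact absurd (Finset.mem_univ j) h

theorem ind_D (X : BMod A A) (x : (S.ind X).N.V) :
    (S.ind X).N.D x = ew q X.N.D x + lm X.b.l q S.th x + rm X.b.r q (ew q X.N.E x) S.th' := rfl

theorem ind_l (X : BMod A A) (b : B.V) (x : (S.ind X).N.V) : (S.ind X).b.l.act b x = lm X.b.l q (S.rho b) x := rfl

theorem ind_r (X : BMod A A) (b : B.V) (x : (S.ind X).N.V) : (S.ind X).b.r.act x b = rm X.b.r q x (S.rho' b) := rfl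

end ASX

end NC
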