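import Pool.Agent.H37.AS.IndQI

/-!
# AS.IndFree : the induced bimodule of the free bimodule is free
-/

set_option autoImplicit false

open scoped TensorProduct

namespace NC

variable {k : Type} [Field k]

/-- a bijective morphism is a quasi-isomorphism -/
theorem SD.Hom.qi_of_bij {N N' : SD k} (f : SD.Hom N N') (hf : Function.Bijective f.f) : f.QI where
  inj := by
    intro x y _ hxy
    obtain ⟨z, hz⟩ := hf.2 y
    refine ⟨z, hf.1 ?_⟩
    rw [f.D, hz, hxy]
  surj := by
    intro y hy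
    obtain ⟨x, hx⟩ := hf.2 y
    refine ⟨x, 0, hf.1 ?_, by rw [hx, map_zero, add_zero]⟩
    rw [f.D, hx, hy, map_zero]

/-- the space of the free bimodule -/
abbrev FA (A : DGA k) : Type := (BMod.free A A).N.V

/-- pure tensors -/
noncomputable def tm {A : DGA k} : A.V →ₗ[k] A.V →ₗ[k] FA A := TensorProduct.mk k A.V A.V

section tm

variable {A : DGA k}

theorem FA_ext {Z : Type} [AddCommGroup Z] [Module k Z] {f g : FA A →ₗ[k] Z}
    (h : ∀ x y : A.V, f (tm x y) = g (tm x y)) (v : FA A) : f v = g v :=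
  tens_ext (X := A.V) (Y := A.V) (f := f) (g := g) h v

theorem free_l (b a c : A.V) : (BMod.free A A).b.l.act b (tm a c) = tm (b * a) c := rfl
theorem free_r (b a c : A.V) : (BMod.free A A).b.r.act (tm a c) b = tm a (c * b) := rfl
theorem free_D (a c : A.V) : (BMod.free A A).N.D (tm a c) = tm (A.D a) c + tm (A.E a) (A.D c) := rfl
theorem free_P (a c : A.V) : (BMod.free A A).N.P (tm a c) = tm (A.P a) (A.P c) + tm (a - A.P a) (c - A.P c) := rfl
theorem free_E (a c : A.V) : (BMod.free A A).N.E (tm a c) = tm (A.E a) (A.E c) := SD.tens_E _ _ a c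

end tm

namespace ASX

variable {A B : DGA k} {q : ℕ} (S : ASX A B q)

/-- `a ⊗ c ↦ t^i a ⊗ c t^j` -/
noncomputable def gg (i j : ℕ) : FA A →ₗ[k] FA B :=
  (TensorProduct.map (LinearMap.mulLeft k (S.t ^ i) ∘ₗ S.i.f) (LinearMap.mulRight k (S.t ^ j) ∘ₗ S.i.f) :
    A.V ⊗[k] A.V →ₗ[k] B.V ⊗[k] B.V)

theorem gg_tm (i j : ℕ) (a c : A.V) : S.gg i j (tm a c) = tm (S.t ^ i * S.i.f a) (S.i.f c * S.t ^ j) := rfl

/-- the comparison map -/
noncomputable def fr : Matrix (Fin q) (Fin q) (FA A) →ₗ[k] FA B where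
  toFun m := ∑ i : Fin q, ∑ j : Fin q, S.gg i j (m i j)
  map_add' m m' := by
    simp only [Matrix.add_apply, map_add, Finset.sum_add_distrib]
  map_smul' c m := by
    simp only [Matrix.smul_apply, map_smul, Finset.smul_sum, RingHom.id_apply]

theorem fr_apply (m : Matrix (Fin q) (Fin q) (FA A)) :
    S.fr m = ∑ i : Fin q, ∑ j : Fin q, S.gg i j (m i j) := rfl

theorem gg_l (b : B.V) (l j : Fin q) (v : FA A) :
    ∑ i : Fin q, S.gg i j ((BMod.free A A).b.l.act (S.rho b i l) v) = (BMod.free B B).b.l.act b (S.gg l j v) := by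
  have h := FA_ext
    (f := ∑ i : Fin q, S.gg i j ∘ₗ (BMod.free A A).b.l.act (S.rho b i l))
    (g := (BMod.free B B).b.l.act b ∘ₗ S.gg l j) (fun a c => by
      rw [LinearMap.sum_apply]
      simp only [LinearMap.comp_apply, free_l, gg_tm]
      rw [← mul_assoc, S.rho_spec b l, Finset.sum_mul, map_sum, LinearMap.sum_apply]
      refine Finset.sum_congr rfl fun i _ => ?_
      rw [S.i_mul, mul_assoc]) v
  rw [LinearMap.sum_apply] at h
  exact h

theorem gg_r (b : B.V) (i l : Fin q) (v : FA A) :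
    ∑ j : Fin q, S.gg i j ((BMod.free A A).b.r.act v (S.rho' b l j)) = (BMod.free B B).b.r.act (S.gg i l v) b := by
  have h := FA_ext
    (f := ∑ j : Fin q, S.gg i j ∘ₗ (BMod.free A A).b.r.act.flip (S.rho' b l j))
    (g := (BMod.free B B).b.r.act.flip b ∘ₗ S.gg i l) (fun a c => by
      rw [LinearMap.sum_apply]
      simp only [LinearMap.comp_apply, LinearMap.flip_apply, free_r, gg_tm]
      rw [mul_assoc (S.i.f c), S.rho'_spec b l, Finset.mul_sum, map_sum]
      refine Finset.sum_congr rfl fun j _ => ?_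
      rw [S.i_mul, mul_assoc (S.i.f c)]) v
  rw [LinearMap.sum_apply] at h
  exact h

theorem gg_P (i j : ℕ) (v : FA A) :
    S.gg i j ((BMod.free A A).N.P v) = (BMod.free B B).N.P (S.gg i j v) := by
  refine FA_ext (f := S.gg i j ∘ₗ (BMod.free A A).N.P) (g := (BMod.free B B).N.P ∘ₗ S.gg i j) (fun a c => ?_) v
  simp only [LinearMap.comp_apply, free_P, gg_tm, S.P_pow_mul, S.P_mul_pow, ← S.i.P, ← mul_sub, ← sub_mul, ← map_sub]
  rw [map_add, gg_tm, gg_tm]

theorem gg_D (i j : Fin q) (v : FA A) :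
    (BMod.free B B).N.D (S.gg i j v) = S.gg i j ((BMod.free A A).N.D v) +
      ∑ l : Fin q, S.gg l j ((BMod.free A A).b.l.act (S.th l i) v) +
      ∑ l : Fin q, S.gg i l ((BMod.free A A).b.r.act ((BMod.free A A).N.E v) (S.th' j l)) := by
  have h := FA_ext (f := (BMod.free B B).N.D ∘ₗ S.gg i j)
    (g := S.gg i j ∘ₗ (BMod.free A A).N.D + ∑ l : Fin q, S.gg l j ∘ₗ (BMod.free A A).b.l.act (S.th l i) +
      ∑ l : Fin q, S.gg i l ∘ₗ (BMod.free A A).b.r.act.flip (S.th' j l) ∘ₗ (BMod.free A A).N.E) (fun a c => by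
    rw [LinearMap.add_apply, LinearMap.add_apply, LinearMap.sum_apply, LinearMap.sum_apply]
    simp only [LinearMap.comp_apply, LinearMap.flip_apply, free_r, free_l, free_E, free_D, gg_tm, map_add]
    have e1 : ∑ l : Fin q, (tm (S.t ^ (l : ℕ) * S.i.f (S.th l i * a)) (S.i.f c * S.t ^ (j : ℕ)) : FA B) =
        tm (B.D (S.t ^ (i : ℕ)) * S.i.f a) (S.i.f c * S.t ^ (j : ℕ)) := by
      rw [S.th_spec i, Finset.sum_mul, map_sum, LinearMap.sum_apply]
      exact Finset.sum_congr rfl fun l _ => by rw [S.i_mul, mul_assoc]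
    have e2 : ∑ l : Fin q, (tm (S.t ^ (i : ℕ) * S.i.f (A.E a)) (S.i.f (A.E c * S.th' j l) * S.t ^ (l : ℕ)) : FA B) =
        tm (S.t ^ (i : ℕ) * S.i.f (A.E a)) (S.i.f (A.E c) * B.D (S.t ^ (j : ℕ))) := by
      rw [S.th'_spec j, Finset.mul_sum, map_sum]
      exact Finset.sum_congr rfl fun l _ => by rw [S.i_mul, mul_assoc]
    rw [e1, e2, B.D_mul', B.D_mul', S.E_pow, S.E_pow_mul, ← S.i.D, ← S.i.D, ← S.i.toHom.E,
      ← S.i.toHom.E]
    simp only [map_add, LinearMap.add_apply]
    abel) v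
  rw [LinearMap.add_apply, LinearMap.add_apply, LinearMap.sum_apply, LinearMap.sum_apply] at h
  exact h

theorem fr_l (b : B.V) (m : Matrix (Fin q) (Fin q) (FA A)) :
    S.fr (lm (BMod.free A A).b.l q (S.rho b) m) = (BMod.free B B).b.l.act b (S.fr m) := by
  have h0 : (BMod.free B B).b.l.act b (S.fr m) =
      ∑ l : Fin q, ∑ j : Fin q, (BMod.free B B).b.l.act b (S.gg l j (m l j)) := by
    rw [fr_apply, map_sum]
    exact Finset.sum_congr rfl fun i _ => map_sum _ _ _
  rw [h0, fr_apply]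
  simp only [lm_apply, map_sum, ← S.gg_l]
  calc ∑ i : Fin q, ∑ j : Fin q, ∑ l : Fin q, S.gg i j ((BMod.free A A).b.l.act (S.rho b i l) (m l j))
      = ∑ i : Fin q, ∑ l : Fin q, ∑ j : Fin q, S.gg i j ((BMod.free A A).b.l.act (S.rho b i l) (m l j)) :=
        Finset.sum_congr rfl fun i _ => Finset.sum_comm
    _ = ∑ l : Fin q, ∑ i : Fin q, ∑ j : Fin q, S.gg i j ((BMod.free A A).b.l.act (S.rho b i l) (m l j)) :=
        Finset.sum_comm
    _ = ∑ l : Fin q, ∑ j : Fin q, ∑ i : Fin q, S.gg i j ((BMod.free A A).b.l.act (S.rho b i l) (m l j)) :=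
        Finset.sum_congr rfl fun l _ => Finset.sum_comm

theorem fr_r (b : B.V) (m : Matrix (Fin q) (Fin q) (FA A)) :
    S.fr (rm (BMod.free A A).b.r q m (S.rho' b)) = (BMod.free B B).b.r.act (S.fr m) b := by
  have h0 : (BMod.free B B).b.r.act (S.fr m) b =
      ∑ i : Fin q, ∑ l : Fin q, (BMod.free B B).b.r.act (S.gg i l (m i l)) b := by
    rw [fr_apply, map_sum, LinearMap.sum_apply]
    exact Finset.sum_congr rfl fun i _ => by rw [map_sum, LinearMap.sum_apply]
  rw [h0, fr_apply]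
  simp only [rm_apply, map_sum, ← S.gg_r]
  exact Finset.sum_congr rfl fun i _ => Finset.sum_comm

theorem fr_P (m : Matrix (Fin q) (Fin q) (FA A)) :
    S.fr (ew q (BMod.free A A).N.P m) = (BMod.free B B).N.P (S.fr m) := by
  rw [fr_apply, fr_apply, map_sum]
  refine Finset.sum_congr rfl fun i _ => ?_
  rw [map_sum]
  exact Finset.sum_congr rfl fun j _ => S.gg_P i j (m i j)

private theorem sum_swap {W : Type} [AddCommMonoid W] (F : Fin q → Fin q → Fin q → W) :
    ∑ i : Fin q, ∑ j : Fin q, ∑ l : Fin q, F i j l = ∑ l : Fin q, ∑ j : Fin q, ∑ i : Fin q, F i j l := by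
  calc ∑ i : Fin q, ∑ j : Fin q, ∑ l : Fin q, F i j l
      = ∑ i : Fin q, ∑ l : Fin q, ∑ j : Fin q, F i j l := Finset.sum_congr rfl fun i _ => Finset.sum_comm
    _ = ∑ l : Fin q, ∑ i : Fin q, ∑ j : Fin q, F i j l := Finset.sum_comm
    _ = ∑ l : Fin q, ∑ j : Fin q, ∑ i : Fin q, F i j l := Finset.sum_congr rfl fun l _ => Finset.sum_comm

theorem fr_D (m : Matrix (Fin q) (Fin q) (FA A)) :
    S.fr (S.indD (BMod.free A A) m) = (BMod.free B B).N.D (S.fr m) := by
  have h0 : (BMod.free B B).N.D (S.fr m) = ∑ i : Fin q, ∑ j : Fin q, (BMod.free B B).N.D (S.gg i j (m i j)) := by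
    rw [fr_apply, map_sum]
    exact Finset.sum_congr rfl fun i _ => map_sum _ _ _
  have h1 : S.fr (ew q (BMod.free A A).N.D m) = ∑ i : Fin q, ∑ j : Fin q, S.gg i j ((BMod.free A A).N.D (m i j)) := rfl
  have h2 : S.fr (lm (BMod.free A A).b.l q S.th m) =
      ∑ i : Fin q, ∑ j : Fin q, ∑ l : Fin q, S.gg l j ((BMod.free A A).b.l.act (S.th l i) (m i j)) := by
    rw [sum_swap (fun i j l => S.gg l j ((BMod.free A A).b.l.act (S.th l i) (m i j))), fr_apply]
    refine Finset.sum_congr rfl fun i _ => Finset.sum_congr rfl fun j _ => ?_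
    rw [lm_apply, map_sum]
  have h3 : S.fr (rm (BMod.free A A).b.r q (ew q (BMod.free A A).N.E m) S.th') =
      ∑ i : Fin q, ∑ j : Fin q, ∑ l : Fin q,
        S.gg i l ((BMod.free A A).b.r.act ((BMod.free A A).N.E (m i j)) (S.th' j l)) := by
    rw [fr_apply]
    refine Finset.sum_congr rfl fun i _ => ?_
    rw [Finset.sum_comm]
    refine Finset.sum_congr rfl fun j _ => ?_
    rw [rm_apply, map_sum]
    rfl
  rw [h0, indD_apply, map_add, map_add, h1, h2, h3, ← Finset.sum_add_distrib, ← Finset.sum_add_distrib]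
  refine Finset.sum_congr rfl fun i _ => ?_
  rw [← Finset.sum_add_distrib, ← Finset.sum_add_distrib]
  exact Finset.sum_congr rfl fun j _ => (S.gg_D i j (m i j)).symm

/-- coordinates as linear maps -/
noncomputable def cRl (i : Fin q) : B.V →ₗ[k] A.V where
  toFun b := S.cR b i
  map_add' b c := by rw [map_add, Pi.add_apply]
  map_smul' c b := by rw [map_smul, Pi.smul_apply, RingHom.id_apply]

/-- coordinates as linear maps -/
noncomputable def cLl (i : Fin q) : B.V →ₗ[k] A.V where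
  toFun b := S.cL b i
  map_add' b c := by rw [map_add, Pi.add_apply]
  map_smul' c b := by rw [map_smul, Pi.smul_apply, RingHom.id_apply]

/-- the entries of the inverse -/
noncomputable def frE (i j : Fin q) : FA B →ₗ[k] FA A :=
  (TensorProduct.map (S.cRl i) (S.cLl j) : B.V ⊗[k] B.V →ₗ[k] A.V ⊗[k] A.V)

theorem frE_tm (b c : B.V) (i j : Fin q) : S.frE i j (tm b c) = tm (S.cR b i) (S.cL c j) := rfl

/-- the inverse -/
noncomputable def frInv : FA B →ₗ[k] Matrix (Fin q) (Fin q) (FA A) where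
  toFun v := Matrix.of fun i j => S.frE i j v
  map_add' v w := by
    ext1 i j
    rw [Matrix.of_apply, map_add]
    rfl
  map_smul' c v := by
    ext1 i j
    rw [Matrix.of_apply, map_smul]
    rfl

theorem frInv_tm (b c : B.V) (i j : Fin q) : S.frInv (tm b c) i j = tm (S.cR b i) (S.cL c j) := rfl

theorem cR_pow_mul (i : Fin q) (a : A.V) : S.cR (S.t ^ (i : ℕ) * S.i.f a) = Pi.single i a := by
  refine S.cR_eq ?_
  rw [Finset.sum_eq_single i]
  · rw [Pi.single_eq_same]
  · intro j _ hj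
    rw [Pi.single_eq_of_ne hj, map_zero, mul_zero]
  · intro h
    exact absurd (Finset.mem_univ i) h

theorem cL_mul_pow (j : Fin q) (a : A.V) : S.cL (S.i.f a * S.t ^ (j : ℕ)) = Pi.single j a := by
  refine S.cL_eq ?_
  rw [Finset.sum_eq_single j]
  · rw [Pi.single_eq_same]
  · intro i _ hi
    rw [Pi.single_eq_of_ne hi, map_zero, zero_mul]
  · intro h
    exact absurd (Finset.mem_univ j) h

theorem frInv_gg (i j : Fin q) (v : FA A) (l m : Fin q) :
    S.frInv (S.gg i j v) l m = if l = i ∧ m = j then v else 0 := by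
  have h : ∀ a c : A.V, S.frInv (S.gg i j (tm a c)) l m = if l = i ∧ m = j then tm a c else 0 := by
    intro a c
    rw [gg_tm, frInv_tm, S.cR_pow_mul, S.cL_mul_pow]
    by_cases h1 : l = i
    · by_cases h2 : m = j
      · rw [if_pos ⟨h1, h2⟩, h1, h2, Pi.single_eq_same, Pi.single_eq_same]
      · rw [if_neg (fun h => h2 h.2), Pi.single_eq_of_ne h2, map_zero]
    · rw [if_neg (fun h => h1 h.1), Pi.single_eq_of_ne h1, map_zero, LinearMap.zero_apply]
  by_cases hc : l = i ∧ m = j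
  · rw [if_pos hc]
    exact FA_ext (f := (Matrix.entryLinearMap k (FA A) l m) ∘ₗ S.frInv ∘ₗ S.gg i j) (g := LinearMap.id)
      (fun a c => (h a c).trans (if_pos hc)) v
  · rw [if_neg hc]
    exact FA_ext (f := (Matrix.entryLinearMap k (FA A) l m) ∘ₗ S.frInv ∘ₗ S.gg i j) (g := 0)
      (fun a c => (h a c).trans (if_neg hc)) v

theorem frInv_fr (m : Matrix (Fin q) (Fin q) (FA A)) : S.frInv (S.fr m) = m := by
  ext1 l n
  rw [fr_apply, map_sum, Matrix.sum_apply]
  have h : ∀ i : Fin q, S.frInv (∑ j : Fin q, S.gg i j (m i j)) l n =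
      ∑ j : Fin q, if l = i ∧ n = j then m i j else 0 := by
    intro i
    rw [map_sum, Matrix.sum_apply]
    exact Finset.sum_congr rfl fun j _ => S.frInv_gg i j _ l n
  simp only [h]
  rw [Finset.sum_eq_single l, Finset.sum_eq_single n]
  · rw [if_pos ⟨rfl, rfl⟩]
  · intro j _ hj
    rw [if_neg (fun h => hj h.2.symm)]
  · intro h
    exact absurd (Finset.mem_univ _) h
  · intro i _ hi
    refine Finset.sum_eq_zero fun j _ => ?_
    rw [if_neg (fun h => hi h.1.symm)]
  · intro h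
    exact absurd (Finset.mem_univ _) h

theorem fr_frInv (v : FA B) : S.fr (S.frInv v) = v := by
  refine FA_ext (f := S.fr ∘ₗ S.frInv) (g := LinearMap.id) (fun b c => ?_) v
  rw [LinearMap.comp_apply, LinearMap.id_apply, fr_apply]
  simp only [frInv_tm, gg_tm]
  have h : ∀ i : Fin q, ∑ j : Fin q,
      (tm (S.t ^ (i : ℕ) * S.i.f (S.cR b i)) (S.i.f (S.cL c j) * S.t ^ (j : ℕ)) : FA B) =
      tm (S.t ^ (i : ℕ) * S.i.f (S.cR b i)) c := by
    intro i
    rw [← map_sum, S.cL_spec]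
  simp only [h]
  rw [← LinearMap.sum_apply, ← map_sum, S.cR_spec]

theorem fr_bij : Function.Bijective S.fr :=
  ⟨Function.LeftInverse.injective S.frInv_fr, Function.RightInverse.surjective S.fr_frInv⟩

/-- the comparison of `ind (A ⊗ A)` and `B ⊗ B` -/
noncomputable def frHom : BMod.Hom (S.ind (BMod.free A A)) (BMod.free B B) where
  f := S.fr
  D := S.fr_D
  P := S.fr_P
  isHom :=
    { l := S.fr_l
      r := fun m b => S.fr_r b m }

theorem ind_free : PF B (S.ind (BMod.free A A)) :=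
  PF.qi' S.frHom (SD.Hom.qi_of_bij _ S.fr_bij) PF.free

/-- **the induction preserves perfect bimodules** -/
theorem ind_pf {X : BMod A A} (h : PF A X) : PF B (S.ind X) := by
  induction h with
  | free => exact S.ind_free
  | sh _ ih => exact PF.qi (S.indSh _) (SD.Hom.qi_of_bij _ Function.bijective_id) (PF.sh ih)
  | qi f hf _ ih => exact PF.qi (S.indHom f) (S.ind_QI f hf) ih
  | qi' f hf _ ih => exact PF.qi' (S.indHom f) (S.ind_QI f hf) ih
  | ses1 f g h _ _ ih1 ih2 => exact PF.ses1 (S.indHom f) (S.indHom g) (S.ind_SES h) ih1 ih2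
  | ses2 f g h _ _ ih1 ih2 => exact PF.ses2 (S.indHom f) (S.indHom g) (S.ind_SES h) ih1 ih2
  | ses3 f g h _ _ ih1 ih2 => exact PF.ses3 (S.indHom f) (S.indHom g) (S.ind_SES h) ih1 ih2
  | retr H _ ih =>
    obtain ⟨H'⟩ := S.ind_HRet H
    exact PF.retr H' ih

end ASX

end NC
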