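import Pool.Agent.H37.AS.Ind

/-!
# AS.IndHom : functoriality of the induced bimodule

`indHom f` (entrywise `f`), short exact sequences, homotopy retracts, shifts.
-/

set_option autoImplicit false

open scoped TensorProduct

namespace NC

variable {k : Type} [Field k]

section mat

variable {A : DGA k} {n : ℕ} {N N' : SD k}

theorem ew_lm {x : LA A N} {x' : LA A N'} {f : N.V →ₗ[k] N'.V} (h : ∀ a y, f (x.act a y) = x'.act a (f y))
    (a : Matrix (Fin n) (Fin n) A.V) (m : Matrix (Fin n) (Fin n) N.V) :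
    ew n f (lm x n a m) = lm x' n a (ew n f m) := by
  ext i j
  simp only [ew_apply, lm_apply, map_sum, h]

theorem ew_rm {x : RA A N} {x' : RA A N'} {f : N.V →ₗ[k] N'.V} (h : ∀ y a, f (x.act y a) = x'.act (f y) a)
    (a : Matrix (Fin n) (Fin n) A.V) (m : Matrix (Fin n) (Fin n) N.V) :
    ew n f (rm x n m a) = rm x' n (ew n f m) a := by
  ext i j
  simp only [ew_apply, rm_apply, map_sum, h]

theorem ew_lmE {x : LA A N} {x' : LA A N'} {f : N.V →ₗ[k] N'.V} (h : ∀ a y, f (x.act a y) = x'.act (A.E a) (f y))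
    (a : Matrix (Fin n) (Fin n) A.V) (m : Matrix (Fin n) (Fin n) N.V) :
    ew n f (lm x n a m) = lm x' n (a.map A.E) (ew n f m) := by
  ext i j
  simp only [ew_apply, lm_apply, map_sum, h, Matrix.map_apply]

end mat

/-! ### the odd part of a homotopy -/

/-- the homotopy of a retract can be taken odd -/
theorem HRet.exists_odd {A B : DGA k} {X F : BMod A B} (H : HRet X F) :
    ∃ H' : HRet X F, ∀ x, X.N.E (H'.h x) = - H'.h (X.N.E x) := by
  set h' : X.N.V →ₗ[k] X.N.V := X.N.P ∘ₗ H.h ∘ₗ (LinearMap.id - X.N.P) + (LinearMap.id - X.N.P) ∘ₗ H.h ∘ₗ X.N.P with hh'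
  have hv : ∀ x, h' x = X.N.P (H.h (x - X.N.P x)) + (H.h (X.N.P x) - X.N.P (H.h (X.N.P x))) := fun _ => rfl
  refine ⟨{
    s := H.s
    r := H.r
    h := h'
    hl := ?_
    hr := ?_
    eq := ?_ }, ?_⟩
  · intro a x
    rw [hv, hv, X.b.l.P_act]
    simp only [map_add, map_sub, H.hl, X.b.l.P_act, A.PP, SD.E_apply, LinearMap.add_apply, LinearMap.sub_apply]
    abel
  · intro x a
    rw [hv, hv, X.b.r.P_act]
    simp only [map_add, map_sub, H.hr, X.b.r.P_act, B.PP, LinearMap.add_apply, LinearMap.sub_apply]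
    abel
  · intro x
    have e1 := H.eq (X.N.P x)
    have e2 := H.eq (x - X.N.P x)
    have p1 := congrArg X.N.P e1
    have p2 := congrArg X.N.P e2
    have q1 : X.N.P (H.r.f (H.s.f (X.N.P x))) = H.r.f (H.s.f (X.N.P x)) := by
      rw [← H.r.P, ← H.s.P, X.N.PP]
    have q2 : X.N.P (H.r.f (H.s.f (x - X.N.P x))) = 0 := by
      rw [← H.r.P, ← H.s.P, map_sub, X.N.PP, sub_self, map_zero, map_zero]
    rw [q1, map_add, map_add, X.N.PP] at p1
    rw [q2, map_add, map_add, map_sub, X.N.PP, sub_self, zero_add] at p2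
    have r0 : H.r.f (H.s.f x) = H.r.f (H.s.f (X.N.P x)) + H.r.f (H.s.f (x - X.N.P x)) := by
      rw [map_sub, map_sub]
      abel
    have d1 : X.N.P (X.N.D (H.h (X.N.P x))) = X.N.D (H.h (X.N.P x)) - X.N.D (X.N.P (H.h (X.N.P x))) := by
      rw [X.N.DP]
      abel
    have d2 : X.N.P (X.N.D (H.h (x - X.N.P x))) =
        X.N.D (H.h (x - X.N.P x)) - X.N.D (X.N.P (H.h (x - X.N.P x))) := by
      rw [X.N.DP]
      abel
    have c1 : X.N.D (X.N.P x) = X.N.D x - X.N.P (X.N.D x) := X.N.DP x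
    have c2 : X.N.D (x - X.N.P x) = X.N.P (X.N.D x) := by
      rw [map_sub, c1]
      abel
    rw [d1, c1] at p1
    rw [d2, c2] at p2
    rw [c2] at e2
    have p2' : X.N.D (H.h (x - X.N.P x)) =
        X.N.D (X.N.P (H.h (x - X.N.P x))) - X.N.P (H.h (X.N.P (X.N.D x))) := by
      rw [eq_sub_iff_add_eq, ← sub_eq_zero, p2]
      abel
    change H.r.f (H.s.f x) = x + X.N.D (h' x) + h' (X.N.D x)
    rw [hv, hv, r0, p1, e2, p2', map_add X.N.D, map_sub X.N.D]
    abel
  · intro x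
    change X.N.E (h' x) = - h' (X.N.E x)
    rw [hv, hv]
    simp only [SD.E_apply, map_add, map_sub, X.N.PP]
    abel

namespace ASX

variable {A B : DGA k} {q : ℕ} (S : ASX A B q)

theorem indHom_D {X Y : BMod A A} (f : BMod.Hom X Y) (x : Matrix (Fin q) (Fin q) X.N.V) :
    ew q f.f (S.indD X x) = S.indD Y (ew q f.f x) := by
  rw [indD_apply, indD_apply, map_add, map_add, ew_lm f.isHom.l, ew_rm f.isHom.r]
  have h1 : ew q f.f (ew q X.N.D x) = ew q Y.N.D (ew q f.f x) := by
    ext i j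
    exact f.D _
  have h2 : ew q f.f (ew q X.N.E x) = ew q Y.N.E (ew q f.f x) := by
    ext i j
    exact f.toHom.E _
  rw [h1, h2]

theorem indHom_P {X Y : BMod A A} (f : BMod.Hom X Y) (x : Matrix (Fin q) (Fin q) X.N.V) :
    ew q f.f (ew q X.N.P x) = ew q Y.N.P (ew q f.f x) := by
  ext i j
  exact f.P _

/-- functoriality -/
noncomputable def indHom {X Y : BMod A A} (f : BMod.Hom X Y) : BMod.Hom (S.ind X) (S.ind Y) where
  f := ew q f.f
  D := S.indHom_D f
  P := indHom_P f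
  isHom :=
    { l := fun a x => ew_lm f.isHom.l (S.rho a) x
      r := fun x a => ew_rm f.isHom.r (S.rho' a) x }

theorem indHom_f {X Y : BMod A A} (f : BMod.Hom X Y) (x : Matrix (Fin q) (Fin q) X.N.V) :
    (S.indHom f).f x = ew q f.f x := rfl

private theorem SES_inj {X' X X'' : BMod A A} {f : BMod.Hom X' X} {g : BMod.Hom X X''} (h : SD.SES f.toHom g.toHom)
    (x : Matrix (Fin q) (Fin q) X'.N.V) (hx : ew q f.f x = 0) : x = 0 := by
  ext i j
  exact h.inj _ (congrFun (congrFun hx i) j)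

private theorem SES_surj {X' X X'' : BMod A A} {f : BMod.Hom X' X} {g : BMod.Hom X X''} (h : SD.SES f.toHom g.toHom)
    (z : Matrix (Fin q) (Fin q) X''.N.V) : ∃ y : Matrix (Fin q) (Fin q) X.N.V, ew q g.f y = z := by
  choose y hy using h.surj
  refine ⟨Matrix.of fun i j => y (z i j), ?_⟩
  ext i j
  exact hy _

private theorem SES_zero {X' X X'' : BMod A A} {f : BMod.Hom X' X} {g : BMod.Hom X X''} (h : SD.SES f.toHom g.toHom)
    (x : Matrix (Fin q) (Fin q) X'.N.V) : ew q g.f (ew q f.f x) = 0 := by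
  ext i j
  exact h.zero _

private theorem SES_exact {X' X X'' : BMod A A} {f : BMod.Hom X' X} {g : BMod.Hom X X''} (h : SD.SES f.toHom g.toHom)
    (y : Matrix (Fin q) (Fin q) X.N.V) (hy : ew q g.f y = 0) : ∃ x : Matrix (Fin q) (Fin q) X'.N.V, ew q f.f x = y := by
  have h1 : ∀ i j, ∃ x, f.f x = y i j := fun i j => h.exact _ (congrFun (congrFun hy i) j)
  choose x hx using h1
  refine ⟨Matrix.of fun i j => x i j, ?_⟩
  ext i j
  exact hx i j

/-- exactness -/
theorem ind_SES {X' X X'' : BMod A A} {f : BMod.Hom X' X} {g : BMod.Hom X X''} (h : SD.SES f.toHom g.toHom) :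
    SD.SES (S.indHom f).toHom (S.indHom g).toHom where
  inj := SES_inj h
  surj := SES_surj h
  zero := SES_zero h
  exact := SES_exact h

private theorem hret_l {X F : BMod A A} (H : HRet X F) (b : B.V) (x : Matrix (Fin q) (Fin q) X.N.V) :
    ew q H.h (lm X.b.l q (S.rho b) x) = lm X.b.l q (S.rho (B.E b)) (ew q H.h x) := by
  rw [ew_lmE H.hl, S.rho_E]

private theorem hret_eq {X F : BMod A A} (H : HRet X F) (hodd : ∀ x, X.N.E (H.h x) = - H.h (X.N.E x))
    (x : Matrix (Fin q) (Fin q) X.N.V) :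
    ew q H.r.f (ew q H.s.f x) = x + S.indD X (ew q H.h x) + ew q H.h (S.indD X x) := by
  have h1 : ew q H.r.f (ew q H.s.f x) = x + ew q X.N.D (ew q H.h x) + ew q H.h (ew q X.N.D x) := by
    ext i j
    exact H.eq _
  have h2 : ew q X.N.E (ew q H.h x) = - ew q H.h (ew q X.N.E x) := by
    ext i j
    exact hodd _
  rw [h1, indD_apply, indD_apply, map_add, map_add, ew_lmE H.hl, ew_rm H.hr, S.th_E, h2]
  simp only [map_neg, LinearMap.neg_apply]
  abel

/-- homotopy retracts -/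
theorem ind_HRet {X F : BMod A A} (H : HRet X F) : Nonempty (HRet (S.ind X) (S.ind F)) := by
  obtain ⟨H, hodd⟩ := H.exists_odd
  exact ⟨{
    s := S.indHom H.s
    r := S.indHom H.r
    h := ew q H.h
    hl := S.hret_l H
    hr := fun x a => ew_rm H.hr (S.rho' a) x
    eq := S.hret_eq H hodd }⟩

private theorem sh_D (X : BMod A A) (x : Matrix (Fin q) (Fin q) X.N.V) : - S.indD X x = S.indD X.sh x := by
  have h0 : S.indD X.sh x = ew q X.sh.N.D x + lm X.sh.b.l q S.th x + rm X.sh.b.r q (ew q X.sh.N.E x) S.th' := rfl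
  have h1 : lm X.sh.b.l q S.th x = - lm X.b.l q S.th x := by
    have h2 : lm X.sh.b.l q S.th x = lm X.b.l q (S.th.map A.E) x := rfl
    rw [h2, S.th_E, map_neg, LinearMap.neg_apply]
  have h3 : ew q X.sh.N.E x = - ew q X.N.E x := by
    ext i j
    exact SD.E_sh X.N _
  have h4 : ew q X.sh.N.D x = - ew q X.N.D x := by
    ext i j
    rfl
  have h5 : rm X.sh.b.r q (- ew q X.N.E x) S.th' = rm X.b.r q (- ew q X.N.E x) S.th' := rfl
  rw [h0, h1, h3, h4, h5, map_neg, LinearMap.neg_apply, indD_apply]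
  abel

private theorem sh_l (X : BMod A A) (b : B.V) (x : Matrix (Fin q) (Fin q) X.N.V) :
    lm X.b.l q (S.rho (B.E b)) x = lm X.b.l q ((S.rho b).map A.E) x := by
  rw [S.rho_E]

/-- the shift -/
noncomputable def indSh (X : BMod A A) : BMod.Hom (S.ind X).sh (S.ind X.sh) where
  f := (LinearMap.id : Matrix (Fin q) (Fin q) X.N.V →ₗ[k] Matrix (Fin q) (Fin q) X.N.V)
  D := S.sh_D X
  P := fun _ => rfl
  isHom :=
    { l := S.sh_l X
      r := fun _ _ => rfl }

end ASX

end NC
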