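import Pool.Agent.H37.AS.IndHom

/-!
# AS.IndQI : the induction preserves quasi-isomorphisms

Quasi-isomorphism = the mapping cone is acyclic (`CAc`); for the matrices the acyclicity is proved by induction on the
support (`i + j < r`), because `θ` and `θ'` are strictly triangular.
-/

set_option autoImplicit false

open scoped TensorProduct

namespace NC

variable {k : Type} [Field k]

/-- the mapping cone is acyclic -/
def CAc {N N' : SD k} (f : SD.Hom N N') : Prop :=
  ∀ x y, N.D x = 0 → f.f x + N'.D y = 0 → ∃ x' y', N.D x' = - x ∧ f.f x' + N'.D y' = y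

theorem SD.Hom.QI.cac {N N' : SD k} {f : SD.Hom N N'} (h : f.QI) : CAc f := by
  intro x y hx hy
  obtain ⟨z, hz⟩ := h.inj x (-y) hx (by rw [map_neg, eq_neg_iff_add_eq_zero]; exact hy)
  obtain ⟨x'', y'', h1, h2⟩ := h.surj (y + f.f z) (by
    rw [map_add, ← f.D, hz, add_comm]
    exact hy)
  refine ⟨x'' - z, y'', ?_, ?_⟩
  · rw [map_sub, h1, hz, zero_sub]
  · rw [map_sub, sub_add_eq_add_sub, ← h2, add_sub_cancel_right]

theorem CAc.qi {N N' : SD k} {f : SD.Hom N N'} (h : CAc f) : f.QI where
  inj := by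
    intro x y hx hy
    obtain ⟨x', y', h1, -⟩ := h x (-y) hx (by rw [map_neg, hy, add_neg_cancel])
    exact ⟨-x', by rw [map_neg, h1, neg_neg]⟩
  surj := by
    intro y hy
    obtain ⟨x', y', h1, h2⟩ := h 0 y (map_zero _) (by rw [map_zero, zero_add, hy])
    exact ⟨x', y', by rw [h1, neg_zero], h2.symm⟩

namespace ASX

variable {A B : DGA k} {q : ℕ} (S : ASX A B q)

theorem indD_top (X : BMod A A) {r : ℕ} {x : Matrix (Fin q) (Fin q) X.N.V}
    (hx : ∀ i j : Fin q, r < (i : ℕ) + j → x i j = 0) (i j : Fin q) (hij : r ≤ (i : ℕ) + j) :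
    S.indD X x i j = X.N.D (x i j) := by
  have h1 : lm X.b.l q S.th x i j = 0 := by
    rw [lm_apply]
    refine Finset.sum_eq_zero fun l _ => ?_
    rcases Nat.lt_or_ge (i : ℕ) l with h | h
    · rw [hx l j (by omega), map_zero]
    · rw [S.th_tri i l h, map_zero, LinearMap.zero_apply]
  have h2 : rm X.b.r q (ew q X.N.E x) S.th' i j = 0 := by
    rw [rm_apply]
    refine Finset.sum_eq_zero fun l _ => ?_
    rcases Nat.lt_or_ge (j : ℕ) l with h | h
    · rw [ew_apply, hx i l (by omega), map_zero, map_zero, LinearMap.zero_apply]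
    · rw [S.th'_tri l j h, map_zero]
  rw [indD_apply, Matrix.add_apply, Matrix.add_apply, h1, h2, add_zero, add_zero, ew_apply]

private theorem ind_cac_aux {X Y : BMod A A} (f : BMod.Hom X Y) (hf : CAc f.toHom) (r : ℕ) :
    ∀ (x : Matrix (Fin q) (Fin q) X.N.V) (y : Matrix (Fin q) (Fin q) Y.N.V),
      (∀ i j : Fin q, r ≤ (i : ℕ) + j → x i j = 0) → (∀ i j : Fin q, r ≤ (i : ℕ) + j → y i j = 0) →
      S.indD X x = 0 → ew q f.f x + S.indD Y y = 0 →
      ∃ (x' : Matrix (Fin q) (Fin q) X.N.V) (y' : Matrix (Fin q) (Fin q) Y.N.V),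
        S.indD X x' = - x ∧ ew q f.f x' + S.indD Y y' = y := by
  induction r with
  | zero =>
    intro x y hx hy _ _
    have hx0 : x = 0 := by
      ext i j
      exact hx i j (Nat.zero_le _)
    have hy0 : y = 0 := by
      ext i j
      exact hy i j (Nat.zero_le _)
    exact ⟨0, 0, by rw [hx0, map_zero, neg_zero], by rw [hy0, map_zero, map_zero, add_zero]⟩
  | succ r ih =>
    intro x y hx hy h1 h2
    have hx' : ∀ i j : Fin q, r < (i : ℕ) + j → x i j = 0 := fun i j h => hx i j h
    have hy' : ∀ i j : Fin q, r < (i : ℕ) + j → y i j = 0 := fun i j h => hy i j h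
    have hex : ∀ i j : Fin q, ∃ (u : X.N.V) (v : Y.N.V), (r = (i : ℕ) + j → X.N.D u = - x i j ∧ f.f u + Y.N.D v = y i j) ∧
        (r ≠ (i : ℕ) + j → u = 0 ∧ v = 0) := by
      intro i j
      by_cases h : r = (i : ℕ) + j
      · have e1 : X.N.D (x i j) = 0 := by
          rw [← S.indD_top X hx' i j h.le, h1]
          rfl
        have e2 : f.f (x i j) + Y.N.D (y i j) = 0 := by
          rw [← S.indD_top Y hy' i j h.le]
          exact congrFun (congrFun h2 i) j
        obtain ⟨u, v, hu, hv⟩ := hf _ _ e1 e2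
        exact ⟨u, v, fun _ => ⟨hu, hv⟩, fun h' => absurd h h'⟩
      · exact ⟨0, 0, fun h' => absurd h' h, fun _ => ⟨rfl, rfl⟩⟩
    choose u v huv using hex
    set U : Matrix (Fin q) (Fin q) X.N.V := Matrix.of fun i j => u i j with hU
    set V : Matrix (Fin q) (Fin q) Y.N.V := Matrix.of fun i j => v i j with hV
    have hU0 : ∀ i j : Fin q, r < (i : ℕ) + j → U i j = 0 := fun i j h => ((huv i j).2 (by omega)).1
    have hV0 : ∀ i j : Fin q, r < (i : ℕ) + j → V i j = 0 := fun i j h => ((huv i j).2 (by omega)).2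
    obtain ⟨x', y', h3, h4⟩ := ih (x + S.indD X U) (y - ew q f.f U - S.indD Y V) (by
      intro i j h
      rw [Matrix.add_apply, S.indD_top X hU0 i j h]
      rcases Nat.lt_or_ge r ((i : ℕ) + j) with h' | h'
      · rw [hU0 i j h', hx' i j h', map_zero, add_zero]
      · have h'' : r = (i : ℕ) + j := le_antisymm h h'
        change x i j + X.N.D (u i j) = 0
        rw [((huv i j).1 h'').1, add_neg_cancel]) (by
      intro i j h
      rw [Matrix.sub_apply, Matrix.sub_apply, S.indD_top Y hV0 i j h, ew_apply]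
      rcases Nat.lt_or_ge r ((i : ℕ) + j) with h' | h'
      · rw [hU0 i j h', hV0 i j h', hy' i j h', map_zero, map_zero, sub_zero, sub_zero]
      · have h'' : r = (i : ℕ) + j := le_antisymm h h'
        change y i j - f.f (u i j) - Y.N.D (v i j) = 0
        rw [← ((huv i j).1 h'').2]
        abel) (by
      rw [map_add, h1, S.indD_indD, add_zero]) (by
      rw [map_add, map_sub, map_sub, S.indHom_D, S.indD_indD]
      have e : ew q f.f x + S.indD Y (ew q f.f U) + (S.indD Y y - S.indD Y (ew q f.f U) - 0) =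
        ew q f.f x + S.indD Y y := by abel
      rw [e, h2])
    refine ⟨x' + U, y' + V, ?_, ?_⟩
    · rw [map_add, h3]
      abel
    · rw [map_add, map_add]
      have e : ew q f.f x' + ew q f.f U + (S.indD Y y' + S.indD Y V) =
        (ew q f.f x' + S.indD Y y') + ew q f.f U + S.indD Y V := by abel
      rw [e, h4]
      abel

/-- **quasi-isomorphisms are preserved** -/
theorem ind_QI {X Y : BMod A A} (f : BMod.Hom X Y) (hf : f.toHom.QI) : (S.indHom f).toHom.QI := by
  refine CAc.qi ?_
  intro x y hx hy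
  exact S.ind_cac_aux f hf.cac (2 * q) x y (fun i j h => by
    have := i.2
    have := j.2
    omega) (fun i j h => by
    have := i.2
    have := j.2
    omega) hx hy

end ASX

end NC
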