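import Pool.Agent.H37.AS.Sep

/-!
# AS.Main : `PF A (diag A)` implies `PF B (diag B)` for Artin-Schreier extensions in characteristic `p`
-/

set_option autoImplicit false

open scoped TensorProduct

namespace NC

variable {k : Type} [Field k]

namespace ASX

variable {A B : DGA k} {q : ℕ} (S : ASX A B q)

/-- the differential of `ind (diag A)` -/
noncomputable def oD : Module.End k (MA A q) := S.indD (BMod.diag A)

theorem oD_apply (m : MA A q) : S.oD m = m.map A.D + S.th * m + m.map A.E * S.th' := rfl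

theorem oD_oL (b : B.V) (m : MA A q) : S.oD (S.oL b m) = S.oL (B.D b) m + S.oL (B.E b) (S.oD m) :=
  S.ind_D_l (BMod.diag A) b m

theorem oD_oR (b : B.V) (m : MA A q) : S.oD (S.oR b m) = S.oR b (S.oD m) + S.oR (B.D b) (m.map A.E) :=
  S.ind_D_r (BMod.diag A) b m

theorem oD_oδ (hq : 0 < q) (m : MA A q) :
    S.oD (S.oδ m) = S.oδ (S.oD m) + (S.oL (S.i.f S.η) m - S.oR (S.i.f S.η) (m.map A.E)) := by
  have h1 : (m.map S.δ).map A.D = (m.map A.D).map S.δ + (m.map (fun a => S.η * a) - (m.map A.E).map (fun a => a * S.η)) := by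
    ext i j
    exact S.D_δ hq (m i j)
  have h2 : (m.map S.δ).map A.E = (m.map A.E).map S.δ := by
    ext i j
    exact (S.δ_E hq (m i j)).symm
  have h3 : S.th.map S.δ = Matrix.scalar (Fin q) S.η - S.rho (S.i.f S.η) := S.th_δ
  have h4 : S.th'.map S.δ = S.rho' (S.i.f S.η) - Matrix.scalar (Fin q) S.η := S.th'_δ
  have h5 : Matrix.scalar (Fin q) S.η * m = m.map (fun a => S.η * a) := by
    ext i j
    rw [Matrix.scalar_apply, Matrix.diagonal_mul, Matrix.map_apply]
  have h6 : m.map A.E * Matrix.scalar (Fin q) S.η = (m.map A.E).map (fun a => a * S.η) := by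
    ext i j
    rw [Matrix.scalar_apply, Matrix.mul_diagonal]
    rfl
  have h7 : S.oδ (S.oD m) = (m.map A.D).map S.δ + (S.th.map S.δ * m + S.th * m.map S.δ) +
      ((m.map A.E).map S.δ * S.th' + m.map A.E * S.th'.map S.δ) := by
    rw [← S.map_δ_mul hq, ← S.map_δ_mul hq]
    ext i j
    simp only [oD_apply, oδ_apply, Matrix.map_apply, Matrix.add_apply, map_add]
  rw [h7, oD_apply, oδ_apply, h1, h2, h3, h4, oL_apply, oR_apply, sub_mul, mul_sub, h5, h6]
  abel

theorem oD_oT (hq : 0 < q) (m : MA A q) : S.oD (S.oT m) = S.oT (S.oD m) := by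
  rw [oT_apply, oT_apply, map_sub, map_sub, S.oD_oL, S.oD_oR, S.oD_oδ hq, S.E_t, S.D_t]
  abel

/-- `P` on the entries -/
noncomputable def oP : Module.End k (MA A q) := ew q A.P

theorem oP_oT (hq : 0 < q) (m : MA A q) : oP (S.oT m) = S.oT (oP m) := by
  have h1 : (S.rho S.t * m).map A.P = S.rho S.t * m.map A.P := by
    have h := S.ind_P_l (BMod.diag A) S.t m
    rw [S.P_t, sub_self, map_zero, map_zero, LinearMap.zero_apply, add_zero] at h
    exact h
  have h2 : (m * S.rho' S.t).map A.P = m.map A.P * S.rho' S.t := by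
    have h := S.ind_P_r (BMod.diag A) S.t m
    rw [S.P_t, sub_self, map_zero, map_zero, add_zero] at h
    exact h
  have h3 : (m.map S.δ).map A.P = (m.map A.P).map S.δ := by
    ext i j
    exact (S.δ_P hq (m i j)).symm
  have h4 : oP (S.oT m) = (S.rho S.t * m).map A.P - (m * S.rho' S.t).map A.P - (m.map S.δ).map A.P := by
    rw [oT_apply, map_sub, map_sub]
    rfl
  rw [h4, h1, h2, h3]
  rfl

/-! ### the element `ε` -/

section eps

variable [NeZero q]

/-- `1 ⊗ 1` -/
noncomputable def e0 (A : DGA k) (q : ℕ) [NeZero q] : MA A q := Matrix.single 0 0 1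

/-- the idempotent `ε` -/
noncomputable def eps : MA A q := e0 A q - (S.oT ^ (q - 1)) (e0 A q)

theorem mul_e0 (M : MA A q) (i j : Fin q) : (M * e0 A q) i j = if j = 0 then M i 0 else 0 := by
  rw [e0, Matrix.mul_apply, Finset.sum_eq_single 0]
  · by_cases h : j = 0
    · rw [if_pos h, h, Matrix.single_apply_same, mul_one]
    · rw [if_neg h, Matrix.single_apply_of_col_ne _ _ (Ne.symm h), mul_zero]
  · intro l _ hl
    rw [Matrix.single_apply_of_row_ne (Ne.symm hl), mul_zero]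
  · intro h
    exact absurd (Finset.mem_univ _) h

theorem e0_mul (M : MA A q) (i j : Fin q) : (e0 A q * M) i j = if i = 0 then M 0 j else 0 := by
  rw [e0, Matrix.mul_apply, Finset.sum_eq_single 0]
  · by_cases h : i = 0
    · rw [if_pos h, h, Matrix.single_apply_same, one_mul]
    · rw [if_neg h, Matrix.single_apply_of_row_ne (Ne.symm h), zero_mul]
  · intro l _ hl
    rw [Matrix.single_apply_of_col_ne _ _ (Ne.symm hl), zero_mul]
  · intro h
    exact absurd (Finset.mem_univ _) h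

theorem oL_e0 (a : A.V) : S.oL (S.i.f a) (e0 A q) = Matrix.single 0 0 a := by
  ext i j
  rw [oL_apply, mul_e0]
  have h1 : S.rho (S.i.f a) i 0 = (Pi.single (0 : Fin q) a : Fin q → A.V) i := by
    change S.cR (S.i.f a * S.t ^ ((0 : Fin q) : ℕ)) i = _
    have h2 : S.i.f a * S.t ^ ((0 : Fin q) : ℕ) = S.t ^ ((0 : Fin q) : ℕ) * S.i.f a := by
      rw [Fin.val_zero, pow_zero, mul_one, one_mul]
    rw [h2, S.cR_pow_mul]
  rw [h1]
  by_cases h : j = 0
  · by_cases h' : i = 0
    · rw [if_pos h, h, h', Pi.single_eq_same, Matrix.single_apply_same]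
    · rw [if_pos h, Pi.single_eq_of_ne h', Matrix.single_apply_of_row_ne (Ne.symm h')]
  · rw [if_neg h, Matrix.single_apply_of_col_ne _ _ (Ne.symm h)]

theorem oR_e0 (a : A.V) : S.oR (S.i.f a) (e0 A q) = Matrix.single 0 0 a := by
  ext i j
  rw [oR_apply, e0_mul]
  have h1 : S.rho' (S.i.f a) 0 j = (Pi.single (0 : Fin q) a : Fin q → A.V) j := by
    change S.cL (S.t ^ ((0 : Fin q) : ℕ) * S.i.f a) j = _
    have h2 : S.t ^ ((0 : Fin q) : ℕ) * S.i.f a = S.i.f a * S.t ^ ((0 : Fin q) : ℕ) := by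
      rw [Fin.val_zero, pow_zero, mul_one, one_mul]
    rw [h2, S.cL_mul_pow]
  rw [h1]
  by_cases h : i = 0
  · by_cases h' : j = 0
    · rw [if_pos h, h, h', Pi.single_eq_same, Matrix.single_apply_same]
    · rw [if_pos h, Pi.single_eq_of_ne h', Matrix.single_apply_of_col_ne _ _ (Ne.symm h')]
  · rw [if_neg h, Matrix.single_apply_of_row_ne (Ne.symm h)]

theorem e0_map {f : A.V →ₗ[k] A.V} : (e0 A q).map f = Matrix.single 0 0 (f 1) := by
  ext i j
  rw [Matrix.map_apply, e0, Matrix.single_apply, Matrix.single_apply]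
  split_ifs
  · rfl
  · exact map_zero f

theorem oδ_e0 (hq : 0 < q) : S.oδ (e0 A q) = 0 := by
  rw [oδ_apply, e0_map, S.δ_one hq, Matrix.single_zero]

theorem oD_e0 : S.oD (e0 A q) = 0 := by
  rw [oD_apply]
  have h1 : (e0 A q).map A.D = 0 := by rw [e0_map, A.D_one, Matrix.single_zero]
  have h2 : (e0 A q).map A.E = e0 A q := by rw [e0_map, A.E_one]; rfl
  have h3 : S.th * e0 A q = 0 := by
    ext i j
    rw [mul_e0, S.th_tri i 0 (Fin.zero_le _), ite_self]
    rfl
  have h4 : e0 A q * S.th' = 0 := by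
    ext i j
    rw [e0_mul, S.th'_tri 0 j (Fin.zero_le _), ite_self]
    rfl
  rw [h1, h2, h3, h4, add_zero, add_zero]

theorem oP_e0 : oP (e0 A q) = e0 A q := by
  change (e0 A q).map A.P = e0 A q
  have h : A.P (1 : A.V) = 1 := A.P_one
  rw [e0_map, h]
  rfl

theorem pow_comm_of {V : Type} [AddCommGroup V] [Module k V] {f g : Module.End k V} (h : ∀ x, f (g x) = g (f x))
    (n : ℕ) (x : V) : f ((g ^ n) x) = (g ^ n) (f x) := by
  induction n generalizing x with
  | zero => rfl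
  | succ n ih => rw [pow_succ, Module.End.mul_apply, Module.End.mul_apply, ih, h]

theorem oD_eps (hq : 0 < q) : S.oD S.eps = 0 := by
  rw [eps, map_sub, pow_comm_of (S.oD_oT hq), S.oD_e0, map_zero, sub_zero]

theorem oP_eps (hq : 0 < q) : oP S.eps = S.eps := by
  rw [eps, map_sub, pow_comm_of (S.oP_oT hq), oP_e0]

theorem i_eps (hq : 0 < q) (a : A.V) : S.oL (S.i.f a) S.eps = S.oR (S.i.f a) S.eps := by
  rw [eps, map_sub, map_sub, pow_comm_of (fun x => (S.oT_oL hq _ x).symm), pow_comm_of (fun x => (S.oT_oR hq _ x).symm),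
    S.oL_e0, S.oR_e0]

theorem t_eps (p n : ℕ) [Fact p.Prime] [CharP k p] (hn : q = p ^ n) : S.oL S.t S.eps = S.oR S.t S.eps := by
  have hq : 0 < q := Nat.pos_of_ne_zero (NeZero.ne q)
  have h1 : S.oL S.t (e0 A q) - S.oR S.t (e0 A q) = S.oT (e0 A q) := by
    rw [oT_apply, S.oδ_e0 hq, sub_zero]
  have h2 : (S.oT ^ (q - 1)) (S.oT (e0 A q)) = S.oT (e0 A q) := by
    have h3 : (S.oT ^ (q - 1 + 1)) (e0 A q) = (S.oT ^ (q - 1)) (S.oT (e0 A q)) := by
      rw [pow_succ, Module.End.mul_apply]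
    rw [← h3, Nat.sub_add_cancel hq, S.oT_pow p n hn]
  rw [← sub_eq_zero, eps, map_sub, map_sub, pow_comm_of (fun x => (S.oT_oL hq _ x).symm),
    pow_comm_of (fun x => (S.oT_oR hq _ x).symm)]
  have h4 : S.oL S.t (e0 A q) - (S.oT ^ (q - 1)) (S.oL S.t (e0 A q)) -
      (S.oR S.t (e0 A q) - (S.oT ^ (q - 1)) (S.oR S.t (e0 A q))) =
      (S.oL S.t (e0 A q) - S.oR S.t (e0 A q)) - (S.oT ^ (q - 1)) (S.oL S.t (e0 A q) - S.oR S.t (e0 A q)) := by
    rw [map_sub]
    abel
  rw [h4, h1, h2, sub_self]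

theorem mul_eps {b c : B.V} (hb : S.oL b S.eps = S.oR b S.eps) (hc : S.oL c S.eps = S.oR c S.eps) :
    S.oL (b * c) S.eps = S.oR (b * c) S.eps := by
  rw [S.oL_mul, hc, S.oL_oR, hb, ← S.oR_mul]

theorem cen_eps (p n : ℕ) [Fact p.Prime] [CharP k p] (hn : q = p ^ n) (b : B.V) : S.oL b S.eps = S.oR b S.eps := by
  have hq : 0 < q := Nat.pos_of_ne_zero (NeZero.ne q)
  have h1 : ∀ j : ℕ, S.oL (S.t ^ j) S.eps = S.oR (S.t ^ j) S.eps := by
    intro j
    induction j with
    | zero => rw [pow_zero, oL_apply, oR_apply, S.rho_one, S.rho'_one, one_mul, mul_one]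
    | succ j ih =>
      rw [pow_succ]
      exact S.mul_eps ih (S.t_eps p n hn)
  have h2 : ∀ j : Fin q, S.oL (S.i.f (S.cL b j) * S.t ^ (j : ℕ)) S.eps =
      S.oR (S.i.f (S.cL b j) * S.t ^ (j : ℕ)) S.eps := fun j => S.mul_eps (S.i_eps hq _) (h1 j)
  rw [← S.cL_spec b, oL_apply, oR_apply, map_sum, map_sum, Finset.sum_mul, Finset.mul_sum]
  exact Finset.sum_congr rfl fun j _ => h2 j

end eps

/-! ### the product map -/

/-- the product map `∑ t^i m_ij t^j` -/
noncomputable def pr : MA A q →ₗ[k] B.V where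
  toFun m := ∑ i : Fin q, ∑ j : Fin q, S.t ^ (i : ℕ) * S.i.f (m i j) * S.t ^ (j : ℕ)
  map_add' m m' := by
    simp only [Matrix.add_apply, map_add, mul_add, add_mul, Finset.sum_add_distrib]
  map_smul' c m := by
    simp only [Matrix.smul_apply, map_smul, mul_smul_comm, smul_mul_assoc, Finset.smul_sum, RingHom.id_apply]

theorem pr_apply (m : MA A q) : S.pr m = ∑ i : Fin q, ∑ j : Fin q, S.t ^ (i : ℕ) * S.i.f (m i j) * S.t ^ (j : ℕ) := rfl

private theorem sum_swap' {W : Type} [AddCommMonoid W] (F : Fin q → Fin q → Fin q → W) :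
    ∑ i : Fin q, ∑ j : Fin q, ∑ l : Fin q, F i j l = ∑ l : Fin q, ∑ j : Fin q, ∑ i : Fin q, F i j l := by
  calc ∑ i : Fin q, ∑ j : Fin q, ∑ l : Fin q, F i j l
      = ∑ i : Fin q, ∑ l : Fin q, ∑ j : Fin q, F i j l := Finset.sum_congr rfl fun i _ => Finset.sum_comm
    _ = ∑ l : Fin q, ∑ i : Fin q, ∑ j : Fin q, F i j l := Finset.sum_comm
    _ = ∑ l : Fin q, ∑ j : Fin q, ∑ i : Fin q, F i j l := Finset.sum_congr rfl fun l _ => Finset.sum_comm

theorem pr_mul_left (M m : MA A q) :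
    S.pr (M * m) = ∑ l : Fin q, ∑ j : Fin q, (∑ i : Fin q, S.t ^ (i : ℕ) * S.i.f (M i l)) * S.i.f (m l j) * S.t ^ (j : ℕ) := by
  rw [pr_apply]
  simp only [Matrix.mul_apply, map_sum, S.i_mul, Finset.mul_sum, Finset.sum_mul, mul_assoc]
  exact sum_swap' _

theorem pr_mul_right (M m : MA A q) :
    S.pr (m * M) = ∑ i : Fin q, ∑ l : Fin q, S.t ^ (i : ℕ) * S.i.f (m i l) * (∑ j : Fin q, S.i.f (M l j) * S.t ^ (j : ℕ)) := by
  rw [pr_apply]
  simp only [Matrix.mul_apply, map_sum, S.i_mul, Finset.mul_sum, Finset.sum_mul, mul_assoc]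
  exact Finset.sum_congr rfl fun i _ => Finset.sum_comm

theorem pr_oL (b : B.V) (m : MA A q) : S.pr (S.oL b m) = b * S.pr m := by
  rw [oL_apply, pr_mul_left, pr_apply, Finset.mul_sum]
  refine Finset.sum_congr rfl fun l _ => ?_
  rw [Finset.mul_sum]
  refine Finset.sum_congr rfl fun j _ => ?_
  rw [← S.rho_spec b l, mul_assoc, mul_assoc, mul_assoc]

theorem pr_oR (b : B.V) (m : MA A q) : S.pr (S.oR b m) = S.pr m * b := by
  rw [oR_apply, pr_mul_right, pr_apply, Finset.sum_mul]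
  refine Finset.sum_congr rfl fun i _ => ?_
  rw [Finset.sum_mul]
  refine Finset.sum_congr rfl fun l _ => ?_
  rw [← S.rho'_spec b l, mul_assoc _ _ b]

theorem pr_oδ (m : MA A q) : S.pr (S.oδ m) = S.t * S.pr m - S.pr m * S.t := by
  rw [pr_apply, pr_apply, Finset.mul_sum, Finset.sum_mul, ← Finset.sum_sub_distrib]
  refine Finset.sum_congr rfl fun i _ => ?_
  rw [Finset.mul_sum, Finset.sum_mul, ← Finset.sum_sub_distrib]
  refine Finset.sum_congr rfl fun j _ => ?_
  have h1 : S.i.f (S.δ (m i j)) = S.t * S.i.f (m i j) - S.i.f (m i j) * S.t := by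
    rw [S.comm]
    abel
  rw [oδ_apply, Matrix.map_apply, h1, mul_sub, sub_mul, ← mul_assoc, ← mul_assoc, ← mul_assoc, ← mul_assoc,
    ← pow_succ, ← pow_succ', mul_assoc _ S.t, ← pow_succ', mul_assoc _ _ S.t, ← pow_succ]

theorem pr_oT (m : MA A q) : S.pr (S.oT m) = 0 := by
  rw [oT_apply, map_sub, map_sub, pr_oL, pr_oR, pr_oδ, sub_self]

theorem pr_oP (m : MA A q) : S.pr (oP m) = B.P (S.pr m) := by
  rw [pr_apply, pr_apply, map_sum]
  refine Finset.sum_congr rfl fun i _ => ?_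
  rw [map_sum]
  refine Finset.sum_congr rfl fun j _ => ?_
  rw [S.P_mul_pow, S.P_pow_mul, ← S.i.P]
  rfl

theorem pr_oD (m : MA A q) : S.pr (S.oD m) = B.D (S.pr m) := by
  have h1 : B.D (S.pr m) = S.pr (m.map A.D) + S.pr (S.th * m) + S.pr (m.map A.E * S.th') := by
    rw [pr_mul_left, pr_mul_right, pr_apply, pr_apply, map_sum, ← Finset.sum_add_distrib, ← Finset.sum_add_distrib]
    refine Finset.sum_congr rfl fun i _ => ?_
    rw [map_sum, ← Finset.sum_add_distrib, ← Finset.sum_add_distrib]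
    refine Finset.sum_congr rfl fun j _ => ?_
    rw [← S.th_spec i, ← S.th'_spec j, B.D_mul', B.D_mul', S.E_pow, S.E_pow_mul, ← S.i.D, ← S.i.toHom.E, add_mul,
      Matrix.map_apply, Matrix.map_apply]
    abel
  rw [h1, oD_apply, map_add, map_add]

theorem pr_eps [NeZero q] (hq : 1 < q) : S.pr S.eps = 1 := by
  have h1 : S.pr (e0 A q) = 1 := by
    rw [pr_apply, Finset.sum_eq_single 0, Finset.sum_eq_single 0]
    · rw [e0, Matrix.single_apply_same, S.i_one, Fin.val_zero, pow_zero, mul_one, mul_one]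
    · intro j _ hj
      rw [e0, Matrix.single_apply_of_col_ne _ _ (Ne.symm hj), map_zero, mul_zero, zero_mul]
    · intro h
      exact absurd (Finset.mem_univ _) h
    · intro i _ hi
      refine Finset.sum_eq_zero fun j _ => ?_
      rw [e0, Matrix.single_apply_of_row_ne (Ne.symm hi), map_zero, mul_zero, zero_mul]
    · intro h
      exact absurd (Finset.mem_univ _) h
  have h2 : q - 1 = (q - 2) + 1 := by omega
  rw [eps, map_sub, h1, h2, pow_succ', Module.End.mul_apply, S.pr_oT, sub_zero]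

/-- the product map as a morphism -/
noncomputable def prHom : BMod.Hom (S.ind (BMod.diag A)) (BMod.diag B) where
  f := S.pr
  D := S.pr_oD
  P := S.pr_oP
  isHom :=
    { l := S.pr_oL
      r := fun m b => S.pr_oR b m }

/-- the section `b ↦ b ε` -/
noncomputable def sc [NeZero q] : B.V →ₗ[k] MA A q where
  toFun b := S.oL b S.eps
  map_add' b c := S.oL_add b c _
  map_smul' c b := by
    rw [oL_apply, oL_apply, map_smul, RingHom.id_apply, Matrix.smul_mul]

theorem sc_D [NeZero q] (hq : 0 < q) (b : B.V) : S.sc (B.D b) = S.oD (S.sc b) := by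
  change S.oL (B.D b) S.eps = S.oD (S.oL b S.eps)
  rw [S.oD_oL, S.oD_eps hq, map_zero, add_zero]

theorem sc_P [NeZero q] (hq : 0 < q) (b : B.V) : S.sc (B.P b) = oP (S.sc b) := by
  have h := P_lm A.diag.l (S.rho b) S.eps
  have h2 : ew q A.P S.eps = S.eps := S.oP_eps hq
  rw [h2, sub_self, map_zero, add_zero] at h
  have h3 : S.rho (B.P b) = (S.rho b).map A.P := by
    ext i j
    exact S.rho_P b i j
  change S.rho (B.P b) * S.eps = ew q A.P (S.rho b * S.eps)
  rw [h3]
  exact h.symm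

theorem sc_r [NeZero q] (p n : ℕ) [Fact p.Prime] [CharP k p] (hn : q = p ^ n) (b c : B.V) :
    S.sc (b * c) = S.oR c (S.sc b) := by
  change S.oL (b * c) S.eps = S.oR c (S.oL b S.eps)
  rw [S.oL_mul, S.cen_eps p n hn c, S.oL_oR]

/-- the section as a morphism -/
noncomputable def scHom [NeZero q] (p n : ℕ) [Fact p.Prime] [CharP k p] (hn : q = p ^ n) :
    BMod.Hom (BMod.diag B) (S.ind (BMod.diag A)) where
  f := S.sc
  D := S.sc_D (Nat.pos_of_ne_zero (NeZero.ne q))
  P := S.sc_P (Nat.pos_of_ne_zero (NeZero.ne q))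
  isHom :=
    { l := fun b c => S.oL_mul b c S.eps
      r := fun b c => S.sc_r p n hn b c }

theorem pr_sc [NeZero q] (hq : 1 < q) (b : B.V) : S.pr (S.sc b) = b := by
  change S.pr (S.oL b S.eps) = b
  rw [S.pr_oL, S.pr_eps hq, mul_one]

/-- **Artin-Schreier extensions of smooth dg algebras are smooth** -/
theorem pf (S : ASX A B q) (p n : ℕ) [Fact p.Prime] [CharP k p] (hn : q = p ^ n) (hn0 : n ≠ 0)
    (h : PF A (BMod.diag A)) : PF B (BMod.diag B) := by
  have hp := (Fact.out : p.Prime)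
  have hq : 1 < q := by
    rw [hn]
    exact Nat.one_lt_pow hn0 hp.one_lt
  have : NeZero q := ⟨by omega⟩
  exact PF.retr (F := S.ind (BMod.diag A))
    { s := S.scHom p n hn
      r := S.prHom
      h := 0
      hl := fun a x => by simp
      hr := fun x a => by simp
      eq := fun x => by
        rw [LinearMap.zero_apply, LinearMap.zero_apply, map_zero, add_zero, add_zero]
        exact S.pr_sc hq x } (S.ind_pf h)

end ASX

end NC
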