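import Pool.Agent.H37.AS.Def

/-!
# AS.Rho : multiplication by elements of `B` in the bases `t^j`

`rho b` : matrix of the left multiplication by `b` in the right basis, `b t^j = ∑ t^i (rho b i j)`;
`rho' b` : matrix of the right multiplication in the left basis, `t^l b = ∑ (rho' b l j) t^j`;
`th`, `th'` : `D (t^j) = ∑ t^i (th i j)`, `D (t^l) = ∑ (th' l j) t^j`.

PROOFS: uniqueness of coordinates (`cR_eq`, `cL_eq`).
`rho_mul`: `(b b') t^j = b ∑_l t^l ρ(b')_lj = ∑_l ∑_i t^i ρ(b)_il ρ(b')_lj`.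
`rho_P`: `P (b t^j) = P b t^j` (`P_mul_pow`) and `P (t^i a) = t^i P a` (`P_pow_mul`, `i.P`).
`rho_D`: `D (b t^j) = D b t^j + E b D (t^j)`, `D (t^i a) = D (t^i) a + t^i D a` (`E_pow`).
`th_th`: `D (D t^j) = 0`.  `th_odd`: `P (D t^j) = 0` because `P (t^j) = t^j` and `B.DP`.
`th_tri`: `D (t^(j+1)) = η t^j + t D (t^j)`, and `η t^j` is in the span of the `t^l A`, `l ≤ j` (`leibR`);
by induction `D (t^j)` is in the span of the `t^l A`, `l < j`.
-/

set_option autoImplicit false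

open scoped TensorProduct

namespace NC

variable {k : Type} [Field k]

namespace ASX

variable {A B : DGA k} {q : ℕ} (S : ASX A B q)

/-- left multiplication by `b` -/
noncomputable def rho : B.V →ₗ[k] Matrix (Fin q) (Fin q) A.V where
  toFun b := Matrix.of fun i j => S.cR (b * S.t ^ (j : ℕ)) i
  map_add' b c := by
    ext i j
    simp only [Matrix.of_apply, Matrix.add_apply, add_mul, map_add, Pi.add_apply]
  map_smul' c b := by
    ext i j
    simp only [Matrix.of_apply, Matrix.smul_apply, smul_mul_assoc, map_smul, Pi.smul_apply, RingHom.id_apply]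

/-- right multiplication by `b` -/
noncomputable def rho' : B.V →ₗ[k] Matrix (Fin q) (Fin q) A.V where
  toFun b := Matrix.of fun l j => S.cL (S.t ^ (l : ℕ) * b) j
  map_add' b c := by
    ext i j
    simp only [Matrix.of_apply, Matrix.add_apply, mul_add, map_add, Pi.add_apply]
  map_smul' c b := by
    ext i j
    simp only [Matrix.of_apply, Matrix.smul_apply, mul_smul_comm, map_smul, Pi.smul_apply, RingHom.id_apply]

/-- `D (t^j)` in the right basis -/
noncomputable def th : Matrix (Fin q) (Fin q) A.V := Matrix.of fun i j => S.cR (B.D (S.t ^ (j : ℕ))) i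

/-- `D (t^l)` in the left basis -/
noncomputable def th' : Matrix (Fin q) (Fin q) A.V := Matrix.of fun l j => S.cL (B.D (S.t ^ (l : ℕ))) j

theorem rho_spec (b : B.V) (j : Fin q) : b * S.t ^ (j : ℕ) = ∑ i : Fin q, S.t ^ (i : ℕ) * S.i.f (S.rho b i j) :=
  (S.cR_spec _).symm

theorem rho'_spec (b : B.V) (l : Fin q) : S.t ^ (l : ℕ) * b = ∑ j : Fin q, S.i.f (S.rho' b l j) * S.t ^ (j : ℕ) :=
  (S.cL_spec _).symm

theorem th_spec (j : Fin q) : B.D (S.t ^ (j : ℕ)) = ∑ i : Fin q, S.t ^ (i : ℕ) * S.i.f (S.th i j) :=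
  (S.cR_spec _).symm

theorem th'_spec (l : Fin q) : B.D (S.t ^ (l : ℕ)) = ∑ j : Fin q, S.i.f (S.th' l j) * S.t ^ (j : ℕ) :=
  (S.cL_spec _).symm

theorem rho_eq {b : B.V} {M : Matrix (Fin q) (Fin q) A.V}
    (h : ∀ j : Fin q, b * S.t ^ (j : ℕ) = ∑ i : Fin q, S.t ^ (i : ℕ) * S.i.f (M i j)) : S.rho b = M := by
  ext i j
  exact congrFun (S.cR_eq (h j)) i

theorem rho'_eq {b : B.V} {M : Matrix (Fin q) (Fin q) A.V}
    (h : ∀ l : Fin q, S.t ^ (l : ℕ) * b = ∑ j : Fin q, S.i.f (M l j) * S.t ^ (j : ℕ)) : S.rho' b = M := by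
  ext l j
  exact congrFun (S.cL_eq (h l)) j

/-- equality of matrices from the equality of the sums `∑ t^i M_ij` -/
theorem mat_ext_R {M M' : Matrix (Fin q) (Fin q) A.V}
    (h : ∀ j : Fin q, ∑ i : Fin q, S.t ^ (i : ℕ) * S.i.f (M i j) = ∑ i : Fin q, S.t ^ (i : ℕ) * S.i.f (M' i j)) :
    M = M' := by
  ext i j
  have h1 := S.cR_eq (a := fun i => M i j) (h j).symm
  have h2 := S.cR_eq (b := ∑ i : Fin q, S.t ^ (i : ℕ) * S.i.f (M' i j)) (a := fun i => M' i j) rfl
  rw [h1] at h2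
  exact congrFun h2 i

/-- equality of matrices from the equality of the sums `∑ M_lj t^j` -/
theorem mat_ext_L {M M' : Matrix (Fin q) (Fin q) A.V}
    (h : ∀ l : Fin q, ∑ j : Fin q, S.i.f (M l j) * S.t ^ (j : ℕ) = ∑ j : Fin q, S.i.f (M' l j) * S.t ^ (j : ℕ)) :
    M = M' := by
  ext l j
  have h1 := S.cL_eq (a := fun j => M l j) (h l).symm
  have h2 := S.cL_eq (b := ∑ j : Fin q, S.i.f (M' l j) * S.t ^ (j : ℕ)) (a := fun j => M' l j) rfl
  rw [h1] at h2
  exact congrFun h2 j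

theorem sum_mul_R (M N : Matrix (Fin q) (Fin q) A.V) (j : Fin q) :
    ∑ i : Fin q, S.t ^ (i : ℕ) * S.i.f ((M * N) i j) =
      ∑ l : Fin q, (∑ i : Fin q, S.t ^ (i : ℕ) * S.i.f (M i l)) * S.i.f (N l j) := by
  simp only [Matrix.mul_apply, map_sum, S.i_mul, Finset.mul_sum, Finset.sum_mul, mul_assoc]
  exact Finset.sum_comm

theorem sum_mul_L (M N : Matrix (Fin q) (Fin q) A.V) (l : Fin q) :
    ∑ j : Fin q, S.i.f ((M * N) l j) * S.t ^ (j : ℕ) =
      ∑ m : Fin q, S.i.f (M l m) * (∑ j : Fin q, S.i.f (N m j) * S.t ^ (j : ℕ)) := by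
  simp only [Matrix.mul_apply, map_sum, S.i_mul, Finset.mul_sum, Finset.sum_mul, mul_assoc]
  exact Finset.sum_comm

theorem rho_one : S.rho 1 = 1 := by
  refine S.rho_eq fun j => ?_
  rw [one_mul, Finset.sum_eq_single j]
  · rw [Matrix.one_apply_eq, S.i_one, mul_one]
  · intro l _ hl
    rw [Matrix.one_apply_ne hl, map_zero, mul_zero]
  · intro h
    exact absurd (Finset.mem_univ j) h

theorem rho'_one : S.rho' 1 = 1 := by
  refine S.rho'_eq fun l => ?_
  rw [mul_one, Finset.sum_eq_single l]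
  · rw [Matrix.one_apply_eq, S.i_one, one_mul]
  · intro j _ hj
    rw [Matrix.one_apply_ne (Ne.symm hj), map_zero, zero_mul]
  · intro h
    exact absurd (Finset.mem_univ l) h

theorem rho_mul (b c : B.V) : S.rho (b * c) = S.rho b * S.rho c := by
  refine S.rho_eq fun j => ?_
  rw [sum_mul_R, mul_assoc, S.rho_spec c j, Finset.mul_sum]
  refine Finset.sum_congr rfl fun l _ => ?_
  rw [← mul_assoc, S.rho_spec b l]

theorem rho'_mul (b c : B.V) : S.rho' (b * c) = S.rho' b * S.rho' c := by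
  refine S.rho'_eq fun l => ?_
  rw [sum_mul_L, ← mul_assoc, S.rho'_spec b l, Finset.sum_mul]
  refine Finset.sum_congr rfl fun j _ => ?_
  rw [mul_assoc, S.rho'_spec c j]

theorem rho_P (b : B.V) (i j : Fin q) : S.rho (B.P b) i j = A.P (S.rho b i j) := by
  have h : S.rho (B.P b) = (S.rho b).map A.P := by
    refine S.rho_eq fun j => ?_
    rw [← S.P_mul_pow, S.rho_spec b j, map_sum]
    refine Finset.sum_congr rfl fun i _ => ?_
    rw [S.P_pow_mul, Matrix.map_apply, S.i.P]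
  rw [h]
  rfl

theorem rho'_P (b : B.V) (i j : Fin q) : S.rho' (B.P b) i j = A.P (S.rho' b i j) := by
  have h : S.rho' (B.P b) = (S.rho' b).map A.P := by
    refine S.rho'_eq fun l => ?_
    rw [← S.P_pow_mul, S.rho'_spec b l, map_sum]
    refine Finset.sum_congr rfl fun j _ => ?_
    rw [S.P_mul_pow, Matrix.map_apply, S.i.P]
  rw [h]
  rfl

theorem rho_E (b : B.V) : S.rho (B.E b) = (S.rho b).map A.E := by
  ext i j
  rw [SD.E_apply, map_sub, map_add, Matrix.map_apply, SD.E_apply, ← S.rho_P]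
  rfl

theorem rho'_E (b : B.V) : S.rho' (B.E b) = (S.rho' b).map A.E := by
  ext i j
  rw [SD.E_apply, map_sub, map_add, Matrix.map_apply, SD.E_apply, ← S.rho'_P]
  rfl

theorem P_D_pow (n : ℕ) : B.P (B.D (S.t ^ n)) = 0 := by
  have h := B.DP (S.t ^ n)
  rw [S.P_pow] at h
  have h2 : B.P (B.D (S.t ^ n)) = B.D (S.t ^ n) - (B.D (S.t ^ n) - B.P (B.D (S.t ^ n))) := by abel
  rw [h2, ← h, sub_self]

theorem th_odd (i j : Fin q) : A.P (S.th i j) = 0 := by
  have h : S.th.map A.P = 0 := by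
    refine S.mat_ext_R fun j => ?_
    have h1 := congrArg B.P (S.th_spec j)
    rw [S.P_D_pow, map_sum] at h1
    simp only [S.P_pow_mul, ← S.i.P] at h1
    simp only [Matrix.map_apply, Matrix.zero_apply, map_zero, mul_zero, Finset.sum_const_zero]
    exact h1.symm
  exact congrFun (congrFun h i) j

theorem th'_odd (i j : Fin q) : A.P (S.th' i j) = 0 := by
  have h : S.th'.map A.P = 0 := by
    refine S.mat_ext_L fun l => ?_
    have h1 := congrArg B.P (S.th'_spec l)
    rw [S.P_D_pow, map_sum] at h1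
    simp only [S.P_mul_pow, ← S.i.P] at h1
    simp only [Matrix.map_apply, Matrix.zero_apply, map_zero, zero_mul, Finset.sum_const_zero]
    exact h1.symm
  exact congrFun (congrFun h i) j

theorem th_E : S.th.map A.E = - S.th := by
  ext i j
  rw [Matrix.map_apply, Matrix.neg_apply]
  exact SD.IsOdd.E (S.th_odd i j)

theorem th'_E : S.th'.map A.E = - S.th' := by
  ext i j
  rw [Matrix.map_apply, Matrix.neg_apply]
  exact SD.IsOdd.E (S.th'_odd i j)

/-- `D (∑ t^i M_ij)` -/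
theorem D_sum_R (M : Matrix (Fin q) (Fin q) A.V) (j : Fin q) :
    B.D (∑ i : Fin q, S.t ^ (i : ℕ) * S.i.f (M i j)) =
      ∑ i : Fin q, S.t ^ (i : ℕ) * S.i.f ((S.th * M + M.map A.D) i j) := by
  simp only [Matrix.add_apply, map_add, mul_add, Finset.sum_add_distrib]
  rw [sum_mul_R, map_sum, ← Finset.sum_add_distrib]
  refine Finset.sum_congr rfl fun l _ => ?_
  rw [B.D_mul', S.E_pow, ← S.i.D, S.th_spec l]
  rfl

/-- `D (∑ M_lj t^j)` -/
theorem D_sum_L (M : Matrix (Fin q) (Fin q) A.V) (l : Fin q) :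
    B.D (∑ j : Fin q, S.i.f (M l j) * S.t ^ (j : ℕ)) =
      ∑ j : Fin q, S.i.f ((M.map A.D + M.map A.E * S.th') l j) * S.t ^ (j : ℕ) := by
  simp only [Matrix.add_apply, map_add, add_mul, Finset.sum_add_distrib]
  rw [sum_mul_L, map_sum, ← Finset.sum_add_distrib]
  refine Finset.sum_congr rfl fun j _ => ?_
  rw [B.D_mul', ← S.i.D, ← S.i.toHom.E, S.th'_spec j]
  rfl

theorem rho_D (b : B.V) : S.rho (B.D b) + S.rho (B.E b) * S.th = S.th * S.rho b + (S.rho b).map A.D := by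
  refine S.mat_ext_R fun j => ?_
  rw [← D_sum_R, ← S.rho_spec b j, B.D_mul']
  simp only [Matrix.add_apply, map_add, mul_add, Finset.sum_add_distrib]
  rw [sum_mul_R, ← S.rho_spec (B.D b) j, S.th_spec j, Finset.mul_sum]
  congr 1
  refine Finset.sum_congr rfl fun l _ => ?_
  rw [← S.rho_spec (B.E b) l, mul_assoc]

theorem rho'_D (b : B.V) : S.rho' (B.D b) + S.th' * S.rho' b = (S.rho' b).map A.D + (S.rho' b).map A.E * S.th' := by
  refine S.mat_ext_L fun l => ?_
  rw [← D_sum_L, ← S.rho'_spec b l, B.D_mul', S.E_pow]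
  simp only [Matrix.add_apply, map_add, add_mul, Finset.sum_add_distrib]
  rw [sum_mul_L, ← S.rho'_spec (B.D b) l, S.th'_spec l, Finset.sum_mul, add_comm]
  congr 1
  refine Finset.sum_congr rfl fun m _ => ?_
  rw [← S.rho'_spec b m, mul_assoc]

theorem th_th : S.th * S.th + S.th.map A.D = 0 := by
  refine S.mat_ext_R fun j => ?_
  rw [← D_sum_R, ← S.th_spec j, B.DD]
  simp only [Matrix.zero_apply, map_zero, mul_zero, Finset.sum_const_zero]

theorem th'_th' : S.th'.map A.D = S.th' * S.th' := by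
  have h : S.th'.map A.D + S.th'.map A.E * S.th' = 0 := by
    refine S.mat_ext_L fun l => ?_
    rw [← D_sum_L, ← S.th'_spec l, B.DD]
    simp only [Matrix.zero_apply, map_zero, zero_mul, Finset.sum_const_zero]
  rw [S.th'_E, neg_mul] at h
  exact eq_of_sub_eq_zero (by rw [sub_eq_add_neg]; exact h)

theorem D_pow_low (n : ℕ) : B.D (S.t ^ n) ∈ S.low n := by
  induction n with
  | zero =>
    rw [pow_zero, B.D_one]
    exact (S.low 0).zero_mem
  | succ n ih =>
    rw [pow_succ', B.D_mul', S.E_t, S.D_t]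
    exact (S.low _).add_mem (S.mem_low (Nat.lt_succ_self n) _) (S.t_mul_low ih)

theorem th'_tri (l j : Fin q) (h : l ≤ j) : S.th' l j = 0 := by
  obtain ⟨a, ha⟩ := S.exists_of_low (S.D_pow_low l)
  have h1 : S.cL (B.D (S.t ^ (l : ℕ))) = fun j : Fin q => if (j : ℕ) < l then a j else 0 := by
    refine S.cL_eq ?_
    rw [ha, Fin.sum_univ_eq_sum_range (fun j => S.i.f (if j < l then a j else 0) * S.t ^ j) q,
      ← Finset.sum_subset (Finset.range_subset_range.2 l.2.le) (fun j _ hj => by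
        rw [Finset.mem_range] at hj
        rw [if_neg hj, map_zero, zero_mul])]
    refine Finset.sum_congr rfl fun j hj => ?_
    rw [if_pos (Finset.mem_range.1 hj)]
  change S.cL (B.D (S.t ^ (l : ℕ))) j = 0
  rw [h1]
  exact if_neg (by rw [not_lt]; exact h)

theorem th_tri (i j : Fin q) (h : j ≤ i) : S.th i j = 0 := by
  obtain ⟨a, ha⟩ := S.exists_of_low' (S.low_le _ (S.D_pow_low j))
  have h1 : S.cR (B.D (S.t ^ (j : ℕ))) = fun i : Fin q => if (i : ℕ) < j then a i else 0 := by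
    refine S.cR_eq ?_
    rw [ha, Fin.sum_univ_eq_sum_range (fun i => S.t ^ i * S.i.f (if i < j then a i else 0)) q,
      ← Finset.sum_subset (Finset.range_subset_range.2 j.2.le) (fun j _ hj => by
        rw [Finset.mem_range] at hj
        rw [if_neg hj, map_zero, mul_zero])]
    refine Finset.sum_congr rfl fun j hj => ?_
    rw [if_pos (Finset.mem_range.1 hj)]
  change S.cR (B.D (S.t ^ (j : ℕ))) i = 0
  rw [h1]
  exact if_neg (by rw [not_lt]; exact h)

/-- `[t, b]` -/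
theorem rho_comm (b : B.V) : S.rho (S.t * b - b * S.t) = (S.rho b).map S.δ := by
  refine S.rho_eq fun j => ?_
  have h1 : (S.t * b - b * S.t) * S.t ^ (j : ℕ) = S.t * (b * S.t ^ (j : ℕ)) - (b * S.t ^ (j : ℕ)) * S.t := by
    rw [sub_mul, mul_assoc, mul_assoc b, mul_assoc b, ← pow_succ, ← pow_succ']
  rw [h1, S.rho_spec b j, Finset.mul_sum, Finset.sum_mul, ← Finset.sum_sub_distrib]
  refine Finset.sum_congr rfl fun i _ => ?_
  rw [← mul_assoc, ← pow_succ', pow_succ, mul_assoc, mul_assoc, S.comm, ← mul_sub, Matrix.map_apply]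
  congr 1
  abel

/-- `[t, b]` -/
theorem rho'_comm (b : B.V) : S.rho' (S.t * b - b * S.t) = (S.rho' b).map S.δ := by
  refine S.rho'_eq fun l => ?_
  have h1 : S.t ^ (l : ℕ) * (S.t * b - b * S.t) = S.t * (S.t ^ (l : ℕ) * b) - (S.t ^ (l : ℕ) * b) * S.t := by
    rw [mul_sub, ← mul_assoc, ← mul_assoc, ← mul_assoc, ← pow_succ, ← pow_succ']
  rw [h1, S.rho'_spec b l, Finset.mul_sum, Finset.sum_mul, ← Finset.sum_sub_distrib]
  refine Finset.sum_congr rfl fun j _ => ?_
  rw [← mul_assoc, S.comm, mul_assoc, ← pow_succ, add_mul, mul_assoc, ← pow_succ', Matrix.map_apply]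
  abel

theorem comm_D_pow (n : ℕ) :
    S.t * B.D (S.t ^ n) - B.D (S.t ^ n) * S.t = S.t ^ n * S.i.f S.η - S.i.f S.η * S.t ^ n := by
  have h1 : B.D (S.t ^ (n + 1)) = S.i.f S.η * S.t ^ n + S.t * B.D (S.t ^ n) := by
    rw [pow_succ', B.D_mul', S.E_t, S.D_t]
  have h2 : B.D (S.t ^ (n + 1)) = B.D (S.t ^ n) * S.t + S.t ^ n * S.i.f S.η := by
    rw [pow_succ, B.D_mul', S.E_pow, S.D_t]
  rw [h1] at h2
  rw [sub_eq_sub_iff_add_eq_add, add_comm, h2, add_comm]

/-- `δ θ = η - ρ(η)` -/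
theorem th_δ : S.th.map S.δ = Matrix.scalar (Fin q) S.η - S.rho (S.i.f S.η) := by
  refine S.mat_ext_R fun j => ?_
  have h1 : ∑ i : Fin q, S.t ^ (i : ℕ) * S.i.f (S.th.map S.δ i j) =
      S.t * B.D (S.t ^ (j : ℕ)) - B.D (S.t ^ (j : ℕ)) * S.t := by
    rw [S.th_spec j, Finset.mul_sum, Finset.sum_mul, ← Finset.sum_sub_distrib]
    refine Finset.sum_congr rfl fun i _ => ?_
    rw [← mul_assoc, ← pow_succ', pow_succ, mul_assoc, mul_assoc, S.comm, ← mul_sub, Matrix.map_apply]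
    congr 1
    abel
  have h2 : ∑ i : Fin q, S.t ^ (i : ℕ) * S.i.f (Matrix.scalar (Fin q) S.η i j) = S.t ^ (j : ℕ) * S.i.f S.η := by
    rw [Finset.sum_eq_single j]
    · rw [Matrix.scalar_apply, Matrix.diagonal_apply_eq]
    · intro l _ hl
      rw [Matrix.scalar_apply, Matrix.diagonal_apply_ne _ hl, map_zero, mul_zero]
    · intro h
      exact absurd (Finset.mem_univ j) h
  rw [h1, S.comm_D_pow]
  simp only [Matrix.sub_apply, map_sub, mul_sub, Finset.sum_sub_distrib]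
  rw [h2, ← S.rho_spec]

/-- `δ θ' = ρ'(η) - η` -/
theorem th'_δ : S.th'.map S.δ = S.rho' (S.i.f S.η) - Matrix.scalar (Fin q) S.η := by
  refine S.mat_ext_L fun l => ?_
  have h1 : ∑ j : Fin q, S.i.f (S.th'.map S.δ l j) * S.t ^ (j : ℕ) =
      S.t * B.D (S.t ^ (l : ℕ)) - B.D (S.t ^ (l : ℕ)) * S.t := by
    rw [S.th'_spec l, Finset.mul_sum, Finset.sum_mul, ← Finset.sum_sub_distrib]
    refine Finset.sum_congr rfl fun j _ => ?_
    rw [← mul_assoc, S.comm, mul_assoc, ← pow_succ, add_mul, mul_assoc, ← pow_succ', Matrix.map_apply]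
    abel
  have h2 : ∑ j : Fin q, S.i.f (Matrix.scalar (Fin q) S.η l j) * S.t ^ (j : ℕ) = S.i.f S.η * S.t ^ (l : ℕ) := by
    rw [Finset.sum_eq_single l]
    · rw [Matrix.scalar_apply, Matrix.diagonal_apply_eq]
    · intro j _ hj
      rw [Matrix.scalar_apply, Matrix.diagonal_apply_ne _ (Ne.symm hj), map_zero, zero_mul]
    · intro h
      exact absurd (Finset.mem_univ l) h
  rw [h1, S.comm_D_pow]
  simp only [Matrix.sub_apply, map_sub, sub_mul, Finset.sum_sub_distrib]
  rw [h2, ← S.rho'_spec]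

end ASX

end NC
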