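import Pool.Agent.H37.AS.IndFree

/-!
# AS.Sep : the separability idempotent

On `ind (diag A)`, matrices `m` over `A`, the operator `T m = ρ(t) m - m ρ'(t) - δ m` is the multiplication by
`t ⊗ 1 - 1 ⊗ t` in the middle of `B ⊗_A B`.  It commutes with both actions of `B` and with the differential, and
`T ^ q = T` in characteristic `p`.  So `ε = (1 - T ^ (q - 1)) (1 ⊗ 1)` is a closed central element, and the product
map sends it to `1`.
-/

set_option autoImplicit false

open scoped TensorProduct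

namespace NC

variable {k : Type} [Field k]

namespace ASX

variable {A B : DGA k} {q : ℕ} (S : ASX A B q)

/-! ### consequences of the commutation rules in `A` -/

section inA

variable (hq : 0 < q)
include hq

theorem δ_mul (a b : A.V) : S.δ (a * b) = S.δ a * b + a * S.δ b := by
  apply S.inj hq
  have h1 := S.comm (a * b)
  have h2 := S.comm a
  have h3 := S.comm b
  rw [map_add, S.i_mul, S.i_mul]
  rw [S.i_mul, ← mul_assoc, h2, add_mul, mul_assoc (S.i.f a), h3, mul_add, ← mul_assoc] at h1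
  have h4 : S.i.f (S.δ (a * b)) = (S.i.f a * S.i.f b * S.t + S.i.f (S.δ (a * b))) - S.i.f a * S.i.f b * S.t := by abel
  rw [h4, ← h1]
  noncomm_ring

theorem δ_one : S.δ 1 = 0 := by
  have h := S.δ_mul hq 1 1
  rw [mul_one, mul_one, one_mul] at h
  exact left_eq_add.mp h

theorem δ_P (a : A.V) : S.δ (A.P a) = A.P (S.δ a) := by
  apply S.inj hq
  have h1 := S.comm (A.P a)
  have h2 := congrArg B.P (S.comm a)
  rw [map_add, S.P_t_mul, S.P_mul_t, ← S.i.P, ← S.i.P, h1] at h2
  exact add_left_cancel h2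

theorem δ_E (a : A.V) : S.δ (A.E a) = A.E (S.δ a) := by
  rw [SD.E_apply, SD.E_apply, map_sub, map_add, S.δ_P hq]

theorem D_δ (a : A.V) : A.D (S.δ a) = S.δ (A.D a) + (S.η * a - A.E a * S.η) := by
  apply S.inj hq
  have h1 := congrArg B.D (S.comm a)
  rw [map_add, B.D_mul', B.D_mul', S.E_t, S.D_t, ← S.i.D, ← S.i.D, ← S.i.toHom.E, S.comm (A.D a)] at h1
  rw [map_add, map_sub, S.i_mul, S.i_mul]
  have h2 : S.i.f (A.D (S.δ a)) = (S.i.f (A.D a) * S.t + S.i.f (A.E a) * S.i.f S.η + S.i.f (A.D (S.δ a))) -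
      (S.i.f (A.D a) * S.t + S.i.f (A.E a) * S.i.f S.η) := by abel
  rw [h2, ← h1]
  abel

theorem comm_φ : S.t * S.i.f S.φ = S.i.f S.φ * S.t := by
  have h1 : S.i.f S.φ = S.t ^ q - S.t := by
    rw [S.t_pow]
    abel
  rw [h1, mul_sub, sub_mul, ← pow_succ, ← pow_succ']

theorem δ_φ : S.δ S.φ = 0 := by
  apply S.inj hq
  have h1 := S.comm S.φ
  rw [S.comm_φ hq] at h1
  rw [map_zero]
  exact left_eq_add.mp h1

end inA

theorem i_δ_pow (n : ℕ) (a : A.V) : S.i.f ((S.δ ^ n) a) =
    ((LinearMap.mulLeft k S.t - LinearMap.mulRight k S.t) ^ n) (S.i.f a) := by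
  induction n with
  | zero => rfl
  | succ n ih =>
    rw [pow_succ', pow_succ', Module.End.mul_apply, Module.End.mul_apply, ← ih, LinearMap.sub_apply,
      LinearMap.mulLeft_apply, LinearMap.mulRight_apply, S.comm]
    abel

/-- the Frobenius identity for commuting endomorphisms in characteristic `p` -/
theorem sub_pow_end {V : Type} [AddCommGroup V] [Module k V] (p n : ℕ) [Fact p.Prime] [CharP k p]
    {f g : Module.End k V} (h : Commute f g) : (f - g) ^ p ^ n = f ^ p ^ n - g ^ p ^ n := by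
  rcases subsingleton_or_nontrivial V with hV | hV
  · ext x
    exact Subsingleton.elim _ _
  · have : CharP (Module.End k V) p := charP_of_injective_algebraMap (algebraMap k (Module.End k V)).injective p
    exact sub_pow_char_pow_of_commute p n h

theorem δ_q (p n : ℕ) [Fact p.Prime] [CharP k p] (hn : q = p ^ n) (a : A.V) :
    (S.δ ^ q) a = S.δ a + (S.φ * a - a * S.φ) := by
  have hq : 0 < q := by
    rw [hn]
    exact pow_pos (Fact.out : p.Prime).pos n
  apply S.inj hq
  have h1 : Commute (LinearMap.mulLeft k S.t) (LinearMap.mulRight k S.t) := by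
    ext x
    exact (mul_assoc _ _ _).symm
  rw [S.i_δ_pow]
  have h2 : (LinearMap.mulLeft k S.t - LinearMap.mulRight k S.t) ^ q =
      LinearMap.mulLeft k S.t ^ q - LinearMap.mulRight k S.t ^ q := by
    have h3 : ∀ r : ℕ, r = p ^ n → (LinearMap.mulLeft k S.t - LinearMap.mulRight k S.t) ^ r =
        LinearMap.mulLeft k S.t ^ r - LinearMap.mulRight k S.t ^ r := by
      rintro r rfl
      exact sub_pow_end p n h1
    exact h3 q hn
  rw [h2, LinearMap.sub_apply, LinearMap.pow_mulLeft, LinearMap.pow_mulRight, LinearMap.mulLeft_apply,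
    LinearMap.mulRight_apply, S.t_pow, add_mul, mul_add, map_add, map_sub, S.i_mul, S.i_mul, S.comm]
  abel

/-! ### the operators -/

/-- matrices over `A` -/
abbrev MA (A : DGA k) (q : ℕ) : Type := Matrix (Fin q) (Fin q) A.V

/-- left action of `b` -/
noncomputable def oL (b : B.V) : Module.End k (MA A q) := LinearMap.mulLeft k (S.rho b)

/-- right action of `b` -/
noncomputable def oR (b : B.V) : Module.End k (MA A q) := LinearMap.mulRight k (S.rho' b)

/-- `δ` on the entries -/
noncomputable def oδ : Module.End k (MA A q) := ew q S.δ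

/-- the operator `T` -/
noncomputable def oT : Module.End k (MA A q) := S.oL S.t - S.oR S.t - S.oδ

theorem oL_apply (b : B.V) (m : MA A q) : S.oL b m = S.rho b * m := rfl

theorem oR_apply (b : B.V) (m : MA A q) : S.oR b m = m * S.rho' b := rfl

theorem oδ_apply (m : MA A q) : S.oδ m = m.map S.δ := rfl

theorem oT_apply (m : MA A q) : S.oT m = S.oL S.t m - S.oR S.t m - S.oδ m := rfl

theorem oL_mul (b c : B.V) (m : MA A q) : S.oL (b * c) m = S.oL b (S.oL c m) := by
  rw [oL_apply, oL_apply, oL_apply, S.rho_mul, mul_assoc]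

theorem oR_mul (b c : B.V) (m : MA A q) : S.oR (b * c) m = S.oR c (S.oR b m) := by
  rw [oR_apply, oR_apply, oR_apply, S.rho'_mul, mul_assoc]

theorem oL_oR (b c : B.V) (m : MA A q) : S.oL b (S.oR c m) = S.oR c (S.oL b m) := by
  rw [oL_apply, oR_apply, oR_apply, oL_apply, mul_assoc]

theorem oL_sub (b c : B.V) (m : MA A q) : S.oL (b - c) m = S.oL b m - S.oL c m := by
  rw [oL_apply, oL_apply, oL_apply, map_sub, sub_mul]

theorem oR_sub (b c : B.V) (m : MA A q) : S.oR (b - c) m = S.oR b m - S.oR c m := by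
  rw [oR_apply, oR_apply, oR_apply, map_sub, mul_sub]

theorem oL_add (b c : B.V) (m : MA A q) : S.oL (b + c) m = S.oL b m + S.oL c m := by
  rw [oL_apply, oL_apply, oL_apply, map_add, add_mul]

theorem oR_add (b c : B.V) (m : MA A q) : S.oR (b + c) m = S.oR b m + S.oR c m := by
  rw [oR_apply, oR_apply, oR_apply, map_add, mul_add]

section pos

variable (hq : 0 < q)
include hq

theorem map_δ_mul (m n : MA A q) : (m * n).map S.δ = m.map S.δ * n + m * n.map S.δ := by
  ext i j
  simp only [Matrix.map_apply, Matrix.mul_apply, Matrix.add_apply, map_sum, S.δ_mul hq, Finset.sum_add_distrib]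

theorem oδ_oL (b : B.V) (m : MA A q) : S.oδ (S.oL b m) = S.oL (S.t * b - b * S.t) m + S.oL b (S.oδ m) := by
  rw [oδ_apply, oL_apply, S.map_δ_mul hq, ← S.rho_comm]
  rfl

theorem oδ_oR (b : B.V) (m : MA A q) : S.oδ (S.oR b m) = S.oR b (S.oδ m) + S.oR (S.t * b - b * S.t) m := by
  rw [oδ_apply, oR_apply, S.map_δ_mul hq, ← S.rho'_comm]
  rfl

theorem oT_oL (b : B.V) (m : MA A q) : S.oT (S.oL b m) = S.oL b (S.oT m) := by
  rw [oT_apply, oT_apply, S.oδ_oL hq, map_sub, map_sub, S.oL_sub, S.oL_mul, S.oL_mul, S.oL_oR]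
  abel

theorem oT_oR (b : B.V) (m : MA A q) : S.oT (S.oR b m) = S.oR b (S.oT m) := by
  rw [oT_apply, oT_apply, S.oδ_oR hq, map_sub, map_sub, S.oR_sub, S.oR_mul, S.oR_mul, S.oL_oR]
  abel

theorem commL : Commute (S.oL S.t) (S.oδ) := by
  ext1 m
  have h := S.oδ_oL hq S.t m
  rw [sub_self] at h
  have h0 : S.oL (0 : B.V) m = 0 := by rw [oL_apply, map_zero, zero_mul]
  rw [h0, zero_add] at h
  exact h.symm

theorem commR : Commute (S.oR S.t) (S.oδ) := by
  ext1 m
  have h := S.oδ_oR hq S.t m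
  rw [sub_self] at h
  have h0 : S.oR (0 : B.V) m = 0 := by rw [oR_apply, map_zero, mul_zero]
  rw [h0, add_zero] at h
  exact h.symm

theorem oL_φ (m : MA A q) : S.oL (S.i.f S.φ) m = m.map (fun a => S.φ * a) := by
  have h : S.rho (S.i.f S.φ) = Matrix.scalar (Fin q) S.φ := by
    refine S.rho_eq fun j => ?_
    rw [Finset.sum_eq_single j]
    · rw [Matrix.scalar_apply, Matrix.diagonal_apply_eq]
      exact ((Commute.pow_left (S.comm_φ hq : Commute S.t (S.i.f S.φ)) (j : ℕ)).eq).symm
    · intro l _ hl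
      rw [Matrix.scalar_apply, Matrix.diagonal_apply_ne _ hl, map_zero, mul_zero]
    · intro h
      exact absurd (Finset.mem_univ j) h
  rw [oL_apply, h]
  ext i j
  rw [Matrix.scalar_apply, Matrix.diagonal_mul, Matrix.map_apply]

theorem oR_φ (m : MA A q) : S.oR (S.i.f S.φ) m = m.map (fun a => a * S.φ) := by
  have h : S.rho' (S.i.f S.φ) = Matrix.scalar (Fin q) S.φ := by
    refine S.rho'_eq fun l => ?_
    rw [Finset.sum_eq_single l]
    · rw [Matrix.scalar_apply, Matrix.diagonal_apply_eq]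
      exact (Commute.pow_left (S.comm_φ hq : Commute S.t (S.i.f S.φ)) (l : ℕ)).eq
    · intro j _ hj
      rw [Matrix.scalar_apply, Matrix.diagonal_apply_ne _ (Ne.symm hj), map_zero, zero_mul]
    · intro h
      exact absurd (Finset.mem_univ l) h
  rw [oR_apply, h]
  ext i j
  rw [Matrix.scalar_apply, Matrix.mul_diagonal, Matrix.map_apply]

end pos

theorem oL_pow (b : B.V) (n : ℕ) : S.oL b ^ n = S.oL (b ^ n) := by
  induction n with
  | zero =>
    ext1 m
    rw [pow_zero, pow_zero, oL_apply, S.rho_one, one_mul]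
    rfl
  | succ n ih =>
    ext1 m
    rw [pow_succ, pow_succ, Module.End.mul_apply, ih, S.oL_mul]

theorem oR_pow (b : B.V) (n : ℕ) : S.oR b ^ n = S.oR (b ^ n) := by
  induction n with
  | zero =>
    ext1 m
    rw [pow_zero, pow_zero, oR_apply, S.rho'_one, mul_one]
    rfl
  | succ n ih =>
    ext1 m
    rw [pow_succ, pow_succ', Module.End.mul_apply, ih, S.oR_mul]

theorem oδ_pow (n : ℕ) (m : MA A q) : (S.oδ ^ n) m = m.map (S.δ ^ n) := by
  induction n generalizing m with
  | zero => rfl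
  | succ n ih =>
    rw [pow_succ, pow_succ, Module.End.mul_apply, ih]
    rfl

/-- **`T ^ q = T`** -/
theorem oT_pow (p n : ℕ) [Fact p.Prime] [CharP k p] (hn : q = p ^ n) : S.oT ^ q = S.oT := by
  have hq : 0 < q := by
    rw [hn]
    exact pow_pos (Fact.out : p.Prime).pos n
  have h1 : Commute (S.oL S.t - S.oR S.t) S.oδ := (S.commL hq).sub_left (S.commR hq)
  have h2 : Commute (S.oL S.t) (S.oR S.t) := by
    ext1 m
    exact S.oL_oR _ _ m
  have h3 : S.oT ^ q = S.oL S.t ^ q - S.oR S.t ^ q - S.oδ ^ q := by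
    have h4 : ∀ r : ℕ, r = p ^ n → S.oT ^ r = S.oL S.t ^ r - S.oR S.t ^ r - S.oδ ^ r := by
      rintro r rfl
      rw [oT, sub_pow_end p n h1, sub_pow_end p n h2]
    exact h4 q hn
  rw [h3]
  ext1 m
  rw [LinearMap.sub_apply, LinearMap.sub_apply, S.oL_pow, S.oR_pow, S.oδ_pow, S.t_pow, S.oL_add, S.oR_add,
    S.oL_φ hq, S.oR_φ hq, oT_apply]
  have h5 : m.map (S.δ ^ q) = S.oδ m + (m.map (fun a => S.φ * a) - m.map (fun a => a * S.φ)) := by
    ext i j
    exact S.δ_q p n hn (m i j)
  rw [h5]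
  abel

end ASX

end NC
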